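import Pool.Agent.Helper95.RP.St

/-!
# Project RP: from the conclusion of `FN` to the theorem
-/

namespace Pool.Agent.Helper95.RP

open Finset
open scoped Classical

/-- the conclusion of `FN`. -/
def FNc : Prop :=
  ∀ (s t n : ℕ), 3 ≤ s → 1 ≤ t → 2 ≤ n →
  ∀ G : SimpleGraph (Fin n), G.CliqueFree s → NoInd G t →
    ∃ K : SimpleGraph (Fin n), K.CliqueFree s ∧ (∀ x y, dgr K x ≤ dgr K y + 1) ∧
      ∀ S : Finset (Fin n), S.card = 10 ^ 18 * t * (Nat.clog 2 n) ^ 7 →
        ∃ x ∈ S, ∃ y ∈ S, K.Adj x y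

theorem noInd_iff {n : ℕ} (G : SimpleGraph (Fin n)) (t : ℕ) : Gᶜ.CliqueFree t ↔ NoInd G t := by
  constructor
  · intro h S hS
    by_contra hc
    push Not at hc
    refine h S ⟨?_, hS⟩
    intro u hu v hv huv
    rw [SimpleGraph.compl_adj]
    exact ⟨huv, hc u hu v hv⟩
  · intro h S hS
    obtain ⟨u, hu, v, hv, huv⟩ := h S hS.card_eq
    have h1 := hS.isClique hu hv huv.ne
    rw [SimpleGraph.compl_adj] at h1
    exact h1.2 huv

theorem card_nbr {n : ℕ} (K : SimpleGraph (Fin n)) (v : Fin n) :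
    Nat.card (K.neighborSet v) = dgr K v := by
  unfold dgr
  rw [Nat.card_eq_fintype_card, ← Set.toFinset_card]
  congr 1
  ext x
  simp

theorem dgr_compl {n : ℕ} (K : SimpleGraph (Fin n)) (v : Fin n) :
    dgr Kᶜ v + dgr K v + 1 = n := by
  have h1 : (univ : Finset (Fin n)) = insert v ((univ.filter (fun y => Kᶜ.Adj v y)) ∪
      (univ.filter (fun y => K.Adj v y))) := by
    ext y
    simp only [mem_univ, mem_insert, mem_union, mem_filter, true_and, SimpleGraph.compl_adj,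
      true_iff]
    by_cases h : y = v
    · exact Or.inl h
    · by_cases h2 : K.Adj v y
      · exact Or.inr (Or.inr h2)
      · exact Or.inr (Or.inl ⟨fun h' => h h'.symm, h2⟩)
  have h2 := congrArg Finset.card h1
  rw [card_univ, Fintype.card_fin, card_insert_of_notMem, card_union_of_disjoint] at h2
  · have e1 : (univ.filter (fun y => Kᶜ.Adj v y)).card = dgr Kᶜ v := by
      unfold dgr
      congr
    have e2 : (univ.filter (fun y => K.Adj v y)).card = dgr K v := by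
      unfold dgr
      congr
    rw [e1, e2] at h2
    omega
  · rw [disjoint_left]
    intro y hy hy'
    simp only [mem_filter, mem_univ, true_and, SimpleGraph.compl_adj] at hy hy'
    exact hy.2 hy'
  · simp

theorem core (h : FNc) :
    ∀ s t n : ℕ, 3 ≤ s → 2 ≤ n →
      (∃ G : SimpleGraph (Fin n), G.CliqueFree s ∧ Gᶜ.CliqueFree t) →
      ∃ G : SimpleGraph (Fin n), G.CliqueFree s ∧
        Gᶜ.CliqueFree (10 ^ 18 * t * (Nat.clog 2 n) ^ 7) ∧
        ∀ v w : Fin n, Nat.card (G.neighborSet v) ≤ Nat.card (G.neighborSet w) + 1 := by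
  rintro s t n hs hn ⟨G, h1, h2⟩
  have ht : 1 ≤ t := by
    rcases Nat.eq_zero_or_pos t with h0 | h0
    · subst h0
      have h3 : Gᶜ.IsNClique 0 (∅ : Finset (Fin n)) :=
        (SimpleGraph.isNClique_iff Gᶜ).2 ⟨by simp, card_empty⟩
      exact absurd h3 (h2 ∅)
    · exact h0
  obtain ⟨K, k1, k2, k3⟩ := h s t n hs ht hn G h1 ((noInd_iff G t).1 h2)
  refine ⟨K, k1, (noInd_iff K _).2 k3, ?_⟩
  intro v w
  rw [card_nbr, card_nbr]
  exact k2 v w

theorem core2 (h : FNc) :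
    ∀ s t n : ℕ, 3 ≤ t → 2 ≤ n →
      (∃ G : SimpleGraph (Fin n), G.CliqueFree s ∧ Gᶜ.CliqueFree t) →
      ∃ G : SimpleGraph (Fin n), G.CliqueFree (10 ^ 18 * s * (Nat.clog 2 n) ^ 7) ∧
        Gᶜ.CliqueFree t ∧
        ∀ v w : Fin n, Nat.card (G.neighborSet v) ≤ Nat.card (G.neighborSet w) + 1 := by
  rintro s t n hs hn ⟨G, h1, h2⟩
  obtain ⟨K, k1, k2, k3⟩ := core h t s n hs hn ⟨Gᶜ, h2, by rwa [compl_compl]⟩
  refine ⟨Kᶜ, k2, by rwa [compl_compl], ?_⟩
  intro v w
  have e1 := dgr_compl K v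
  have e2 := dgr_compl K w
  have e3 := k3 w v
  rw [card_nbr, card_nbr] at e3
  rw [card_nbr, card_nbr]
  omega

end Pool.Agent.Helper95.RP
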