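import Pool.Agent.Helper95.RP.St

/-! # Module GA of project RP (MP_e0fa86_co): the degrees of the blow-up -/

namespace Pool.Agent.Helper95.RP.GAm

open Pool.Agent.Helper95.RP Finset
open scoped Classical

theorem hGA : GA := by
  intro N G V m a R hB x hx
  obtain ⟨u, i⟩ := x
  rw [mem_Pt] at hx
  obtain ⟨hu, hi⟩ := hx
  simp only at hu hi
  have hmaps : ∀ y ∈ (Pt V m).filter (fun y => (Fg G V R).Adj (u, i) y),
      y.1 ∈ V.filter (fun v => G.Adj u v) := by
    intro y hy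
    rw [mem_filter, mem_Pt] at hy
    obtain ⟨_, h1, h2, h3, _⟩ := hy
    exact mem_filter.2 ⟨h2, h3⟩
  rw [card_eq_sum_card_fiberwise hmaps]
  refine sum_congr rfl ?_
  intro v hv
  rw [mem_filter] at hv
  obtain ⟨hv, huv⟩ := hv
  rcases lt_trichotomy u v with hlt | heq | hgt
  · obtain ⟨b1, b2, b3⟩ := hB u hu v hv huv hlt
    show _ = a u v i
    rw [← b2 i (mem_range.2 hi)]
    rw [← card_image_of_injOn (s := (R u v).filter (fun p => p.1 = i)) (f := fun p => (v, p.2))]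
    · congr 1
      ext ⟨w, j⟩
      simp only [mem_filter, mem_Pt, mem_image, Prod.mk.injEq, Prod.exists]
      constructor
      · rintro ⟨⟨⟨h1, h2⟩, h3⟩, rfl⟩
        obtain ⟨_, _, _, h4⟩ := h3
        rcases h4 with ⟨_, h5⟩ | ⟨h5, _⟩
        · exact ⟨i, j, ⟨h5, rfl⟩, rfl, rfl⟩
        · exact absurd (lt_trans h5 hlt) (lt_irrefl _)
      · rintro ⟨p1, p2, ⟨h1, rfl⟩, rfl, rfl⟩
        have h2 := b1 h1
        rw [mem_product, mem_range, mem_range] at h2
        exact ⟨⟨⟨hv, h2.2⟩, hu, hv, huv, Or.inl ⟨hlt, h1⟩⟩, rfl⟩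
    · intro p hp p' hp' he
      rw [mem_coe, mem_filter] at hp hp'
      exact Prod.ext (by rw [hp.2, hp'.2]) (Prod.mk.inj he).2
  · subst heq
    exact absurd huv (G.loopless.irrefl _)
  · obtain ⟨b1, b2, b3⟩ := hB v hv u hu huv.symm hgt
    show _ = a u v i
    rw [← b3 i (mem_range.2 hi)]
    rw [← card_image_of_injOn (s := (R v u).filter (fun p => p.2 = i)) (f := fun p => (v, p.1))]
    · congr 1
      ext ⟨w, j⟩
      simp only [mem_filter, mem_Pt, mem_image, Prod.mk.injEq, Prod.exists]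
      constructor
      · rintro ⟨⟨⟨h1, h2⟩, h3⟩, rfl⟩
        obtain ⟨_, _, _, h4⟩ := h3
        rcases h4 with ⟨h5, _⟩ | ⟨_, h5⟩
        · exact absurd (lt_trans h5 hgt) (lt_irrefl _)
        · exact ⟨j, i, ⟨h5, rfl⟩, rfl, rfl⟩
      · rintro ⟨p1, p2, ⟨h1, rfl⟩, rfl, rfl⟩
        have h2 := b1 h1
        rw [mem_product, mem_range, mem_range] at h2
        exact ⟨⟨⟨hv, h2.1⟩, hu, hv, huv, Or.inr ⟨hgt, h1⟩⟩, rfl⟩
    · intro p hp p' hp' he
      rw [mem_coe, mem_filter] at hp hp'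
      exact Prod.ext (Prod.mk.inj he).2 (by rw [hp.2, hp'.2])

end Pool.Agent.Helper95.RP.GAm
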