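import Pool.Agent.Helper95.RP.M_GC

/-! # Module GB of project RP (MP_e0fa86_co): the random blow-up -/

namespace Pool.Agent.Helper95.RP.GBm

open Pool.Agent.Helper95.RP Finset
open scoped Classical

theorem e2_pairs {N : ℕ} (G : SimpleGraph (Fin N)) (W : Finset (Fin N)) :
    e2 G W = 2 * ((W ×ˢ W).filter (fun p => p.1 < p.2 ∧ G.Adj p.1 p.2)).card := by
  have h1 : e2 G W = ((W ×ˢ W).filter (fun p => G.Adj p.1 p.2)).card := by
    unfold e2 dg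
    rw [card_filter, sum_product]
    refine sum_congr rfl ?_
    intro v _
    rw [card_filter]
  have h2 : (W ×ˢ W).filter (fun p => G.Adj p.1 p.2) =
      ((W ×ˢ W).filter (fun p => p.1 < p.2 ∧ G.Adj p.1 p.2)) ∪
      ((W ×ˢ W).filter (fun p => p.1 < p.2 ∧ G.Adj p.1 p.2)).image Prod.swap := by
    ext ⟨u, v⟩
    simp only [mem_filter, mem_product, mem_union, mem_image, Prod.exists, Prod.swap_prod_mk,
      Prod.mk.injEq]
    constructor
    · rintro ⟨⟨hu, hv⟩, huv⟩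
      rcases lt_trichotomy u v with hlt | heq | hgt
      · exact Or.inl ⟨⟨hu, hv⟩, hlt, huv⟩
      · exact absurd huv (heq ▸ G.loopless.irrefl _)
      · exact Or.inr ⟨v, u, ⟨⟨hv, hu⟩, hgt, huv.symm⟩, rfl, rfl⟩
    · rintro (⟨⟨hu, hv⟩, _, huv⟩ | ⟨a, b, ⟨⟨ha, hb⟩, _, hab⟩, rfl, rfl⟩)
      · exact ⟨⟨hu, hv⟩, huv⟩
      · exact ⟨⟨hb, ha⟩, hab.symm⟩
  have h3 : Disjoint ((W ×ˢ W).filter (fun p => p.1 < p.2 ∧ G.Adj p.1 p.2))
      (((W ×ˢ W).filter (fun p => p.1 < p.2 ∧ G.Adj p.1 p.2)).image Prod.swap) := by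
    rw [disjoint_left]
    rintro ⟨u, v⟩ hp hq
    rw [mem_filter] at hp
    rw [mem_image] at hq
    obtain ⟨⟨a, b⟩, hab, he⟩ := hq
    rw [mem_filter] at hab
    simp only [Prod.swap_prod_mk, Prod.mk.injEq] at he
    obtain ⟨rfl, rfl⟩ := he
    exact absurd (lt_trans hp.2.1 hab.2.1) (lt_irrefl _)
  rw [h1, h2, card_union_of_disjoint h3, card_image_of_injective _ Prod.swap_injective]
  ring

theorem num (X τ K q r h : ℕ) (hτ : 1 ≤ τ) (hq : 1 ≤ q) (hK : 1 ≤ K) (hr : r = τ * (K * q))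
    (hX : X ≤ h ^ τ) (hh : h ≤ 2 ^ q) : (X : ℝ) * (1 - 1 / (K : ℝ)) ^ r < 1 := by
  have hK0 : (0 : ℝ) < (K : ℝ) := by exact_mod_cast hK
  have h1 : (1 - 1 / (K : ℝ)) ≤ Real.exp (-(1 / (K : ℝ))) := by
    have := Real.add_one_le_exp (-(1 / (K : ℝ)))
    linarith
  have h0 : 0 ≤ (1 - 1 / (K : ℝ)) := by
    have : 1 / (K : ℝ) ≤ 1 := by
      rw [div_le_one hK0]
      exact_mod_cast hK
    linarith
  have h2 : (1 - 1 / (K : ℝ)) ^ r ≤ Real.exp (-1) ^ (q * τ) := by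
    calc (1 - 1 / (K : ℝ)) ^ r ≤ Real.exp (-(1 / (K : ℝ))) ^ r := pow_le_pow_left₀ h0 h1 r
      _ = Real.exp (-1) ^ (q * τ) := by
        rw [← Real.exp_nat_mul, ← Real.exp_nat_mul]
        congr 1
        rw [hr]
        push_cast
        field_simp
  have h3 : (X : ℝ) ≤ 2 ^ (q * τ) := by
    have : X ≤ 2 ^ (q * τ) := by
      calc X ≤ h ^ τ := hX
        _ ≤ (2 ^ q) ^ τ := Nat.pow_le_pow_left hh τ
        _ = 2 ^ (q * τ) := by rw [← pow_mul]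
    exact_mod_cast this
  have h4 : (2 : ℝ) * Real.exp (-1) < 1 := by
    have h5 : (2 : ℝ) < Real.exp 1 := by
      have := Real.exp_one_gt_d9
      linarith
    rw [Real.exp_neg, ← div_eq_mul_inv, div_lt_one (Real.exp_pos 1)]
    exact h5
  calc (X : ℝ) * (1 - 1 / (K : ℝ)) ^ r ≤ 2 ^ (q * τ) * Real.exp (-1) ^ (q * τ) :=
        mul_le_mul h3 h2 (pow_nonneg h0 r) (by positivity)
    _ = (2 * Real.exp (-1)) ^ (q * τ) := by rw [mul_pow]
    _ < 1 := pow_lt_one₀ (by positivity) h4 (by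
        have : 0 < q * τ := Nat.mul_pos hq hτ
        omega)

theorem hGB : GB := by
  intro hTU hBG hST hSW hUB N G V m z a t q M h ht hq hM hI hh hsum hm hzs hz ha hab
  have hM2 : 1 ≤ M ^ 2 := Nat.one_le_pow _ _ hM
  have hOm : ∀ i : Fin N × Fin N, ∃ Om : Finset (Finset (ℕ × ℕ)), Om.Nonempty ∧
      Om.card ≤ M ^ 2 ∧ (i.1 ∈ V → i.2 ∈ V → G.Adj i.1 i.2 →
        (∀ R ∈ Om, Bip (m i.1) (m i.2) (a i.1 i.2) (a i.2 i.1) R) ∧
        ∀ x0 ∈ range (m i.1), ∀ y0 ∈ range (m i.2), ∃ R ∈ Om, (x0, y0) ∈ R) := by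
    rintro ⟨u, v⟩
    by_cases hc : u ∈ V ∧ v ∈ V ∧ G.Adj u v
    · obtain ⟨hu, hv, huv⟩ := hc
      obtain ⟨z1, z2, z3⟩ := hz u hu v hv huv
      obtain ⟨Om, o1, o2, o3, o4⟩ := hSW hBG hST (m u) (m v) M (z u v) (a u v) (a v u)
        (hm u hu).1 (hm u hu).2 (hm v hv).1 (hm v hv).2 (ha u hu v)
        (by rw [ha v hv u, hzs]) (hab u hu v) (hab v hv u) z1 z2 z3
      exact ⟨Om, o1, o2, fun _ _ _ => ⟨o3, o4⟩⟩
    · refine ⟨{∅}, singleton_nonempty _, by rw [card_singleton]; exact hM2, ?_⟩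
      intro h1 h2 h3
      exact absurd ⟨h1, h2, h3⟩ hc
  choose Om hO1 hO2 hO3 using hOm
  obtain ⟨τ, hτ⟩ : ∃ τ, τ = 4 * t * M ^ 2 * q := ⟨_, rfl⟩
  have hMq : 1 ≤ M ^ 2 * q := Nat.mul_pos hM2 hq
  have hτ2 : τ = 4 * t * (M ^ 2 * q) := by rw [hτ]; ring
  have hτ1 : 1 ≤ τ := by
    rw [hτ2]
    have : 0 < 4 * t * (M ^ 2 * q) := Nat.mul_pos (by omega) hMq
    omega
  obtain ⟨w, hw1, hw2⟩ := hUB (Fin N × Fin N) (Finset (ℕ × ℕ)) (Finset (Fin N × ℕ)) Om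
    (((Pt V m).powersetCard τ).filter Tr)
    (fun S => ((S.image Prod.fst) ×ˢ (S.image Prod.fst)).filter
      (fun p => p.1 < p.2 ∧ G.Adj p.1 p.2))
    (fun S i R => ∃ x y, (i.1, x) ∈ S ∧ (i.2, y) ∈ S ∧ (x, y) ∈ R)
    (M ^ 2) (τ * (M ^ 2 * q)) hM2 (fun i => ⟨hO1 i, hO2 i⟩) (by
      intro S hS
      rw [mem_filter, mem_powersetCard] at hS
      obtain ⟨⟨hS1, hS2⟩, hS3⟩ := hS
      constructor
      · have hc : (S.image Prod.fst).card = τ := by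
          rw [card_image_of_injOn, hS2]
          intro x hx y hy hxy
          exact hS3 x hx y hy hxy
        have h1 := hTU N G t (S.image Prod.fst) (fun S' _ hS' => hI S' hS')
        rw [hc, e2_pairs] at h1
        obtain ⟨P, hP⟩ : ∃ P, P = (((S.image Prod.fst) ×ˢ (S.image Prod.fst)).filter
          (fun p => p.1 < p.2 ∧ G.Adj p.1 p.2)).card := ⟨_, rfl⟩
        rw [← hP] at h1 ⊢
        obtain ⟨Q, hQ⟩ : ∃ Q, Q = M ^ 2 * q := ⟨_, rfl⟩
        rw [← hQ] at hτ2 hMq ⊢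
        have h2 : t * (4 * (τ * Q)) ≤ t * (2 * P + τ) := by
          calc t * (4 * (τ * Q)) = τ * (4 * t * Q) := by ring
            _ = τ ^ 2 := by rw [← hτ2]; ring
            _ ≤ _ := h1
        have h3 : 4 * (τ * Q) ≤ 2 * P + τ := Nat.le_of_mul_le_mul_left h2 ht
        have h4 : τ ≤ τ * Q := Nat.le_mul_of_pos_right _ hMq
        omega
      · rintro ⟨u, v⟩ hi
        rw [mem_filter, mem_product] at hi
        obtain ⟨⟨hu, hv⟩, _, huv⟩ := hi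
        simp only at hu hv huv
        rw [mem_image] at hu hv
        obtain ⟨⟨u', x⟩, hx, rfl⟩ := hu
        obtain ⟨⟨v', y⟩, hy, rfl⟩ := hv
        simp only at huv
        have hx1 := (mem_Pt V m _).1 (hS1 hx)
        have hy1 := (mem_Pt V m _).1 (hS1 hy)
        obtain ⟨R, hR1, hR2⟩ := (hO3 (u', v') hx1.1 hy1.1 huv).2 x (mem_range.2 hx1.2) y
          (mem_range.2 hy1.2)
        exact ⟨R, hR1, x, y, hx, hy, hR2⟩) (by
      refine num _ τ (M ^ 2) q _ h hτ1 hq hM2 rfl ?_ hh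
      calc (((Pt V m).powersetCard τ).filter Tr).card ≤ ((Pt V m).powersetCard τ).card :=
            card_filter_le _ _
        _ = h.choose τ := by rw [card_powersetCard, GCm.card_Pt, hsum]
        _ ≤ h ^ τ := Nat.choose_le_pow _ _)
  refine ⟨fun u v => w (u, v), ?_, ?_⟩
  · intro u hu v hv huv _
    exact (hO3 (u, v) hu hv huv).1 _ (hw1 (u, v))
  · intro S hS1 hS2 hS3
    obtain ⟨⟨u, v⟩, hi, x, y, hx, hy, hxy⟩ := hw2 S (by
      rw [mem_filter, mem_powersetCard]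
      exact ⟨⟨hS1, by rw [hS3, hτ]⟩, hS2⟩)
    rw [mem_filter] at hi
    obtain ⟨_, hlt, huv⟩ := hi
    simp only at hlt huv hx hy
    have hx1 := (mem_Pt V m _).1 (hS1 hx)
    have hy1 := (mem_Pt V m _).1 (hS1 hy)
    exact ⟨(u, x), hx, (v, y), hy, hx1.1, hy1.1, huv, Or.inl ⟨hlt, hxy⟩⟩

end Pool.Agent.Helper95.RP.GBm
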