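import Pool.Agent.Helper95.RP.St

/-! # Module GC of project RP (MP_e0fa86_co): the blow-up on `Fin h` -/

namespace Pool.Agent.Helper95.RP.GCm

open Pool.Agent.Helper95.RP Finset
open scoped Classical

theorem card_Pt {N : ℕ} (V : Finset (Fin N)) (m : Fin N → ℕ) :
    (Pt V m).card = ∑ u ∈ V, m u := by
  unfold Pt
  rw [card_biUnion]
  · refine sum_congr rfl ?_
    intro u _
    rw [card_image_of_injective _ (fun a b hab => (Prod.mk.inj hab).2), card_range]
  · intro u _ v _ huv
    show Disjoint _ _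
    rw [disjoint_left]
    intro x hx hy
    rw [mem_image] at hx hy
    obtain ⟨i, _, rfl⟩ := hx
    obtain ⟨j, _, hj⟩ := hy
    exact huv (Prod.mk.inj hj).1.symm

theorem hGC : GC := by
  intro hTU hBA hBG hST hSW hUB hGB hGA N G V m z t q M h D ht hq hM hI hh hsum hm hzs hz0 hz hD
  have hex : ∀ u : Fin N, ∃ a : Fin N → ℕ → ℕ, u ∈ V →
      (∀ v, ∑ x ∈ range (m u), a v x = z u v) ∧
      (∀ v, ∀ x ∈ range (m u), ∀ y ∈ range (m u), a v x ≤ a v y + 1) ∧
      (∀ x ∈ range (m u), D ≤ ∑ v : Fin N, a v x ∧ ∑ v : Fin N, a v x ≤ D + 3) := by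
    intro u
    by_cases hu : u ∈ V
    · obtain ⟨a, a1, a2, a3⟩ := hBA N (m u) (z u) (hm u hu).1
      exact ⟨a, fun _ => ⟨a1, a2, a3 D (D + 3) (hD u hu).1 (hD u hu).2⟩⟩
    · exact ⟨fun _ _ => 0, fun h => absurd h hu⟩
  choose a ha using hex
  obtain ⟨R, r1, r2⟩ := hGB hTU hBG hST hSW hUB N G V m z a t q M h ht hq hM hI hh hsum hm hzs hz
    (fun u hu => (ha u hu).1) (fun u hu => (ha u hu).2.1)
  have hcard : (Pt V m).card = h := by rw [card_Pt, hsum]
  obtain ⟨e⟩ : Nonempty (Fin h ≃ {x // x ∈ Pt V m}) :=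
    ⟨((Pt V m).equivFinOfCardEq hcard).symm⟩
  obtain ⟨φ, hφ⟩ : ∃ φ : Fin h → Fin N × ℕ, φ = fun x => (e x).1 := ⟨_, rfl⟩
  have hφinj : Function.Injective φ := by
    intro x y hxy
    rw [hφ] at hxy
    exact e.injective (Subtype.ext hxy)
  have hφmem : ∀ x, φ x ∈ Pt V m := by
    intro x
    rw [hφ]
    exact (e x).2
  have hφsurj : ∀ y ∈ Pt V m, ∃ x, φ x = y := by
    intro y hy
    refine ⟨e.symm ⟨y, hy⟩, ?_⟩
    rw [hφ]
    simp
  refine ⟨(Fg G V R).comap φ, ?_, ?_, ?_⟩
  · intro s hs C hC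
    have hadj : ∀ x ∈ C, ∀ y ∈ C, x ≠ y → G.Adj (φ x).1 (φ y).1 := by
      intro x hx y hy hxy
      have := hC.isClique hx hy hxy
      rw [SimpleGraph.comap_adj] at this
      exact this.2.2.1
    refine hs (C.image (fun x => (φ x).1)) ?_
    rw [SimpleGraph.isNClique_iff]
    constructor
    · intro u hu v hv huv
      rw [mem_coe, mem_image] at hu hv
      obtain ⟨x, hx, rfl⟩ := hu
      obtain ⟨y, hy, rfl⟩ := hv
      exact hadj x hx y hy (fun e => huv (by rw [e]))
    · rw [card_image_of_injOn, hC.card_eq]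
      intro x hx y hy hxy
      by_contra hne
      have := hadj x hx y hy hne
      simp only at hxy
      rw [hxy] at this
      exact G.loopless.irrefl _ this
  · intro x
    have h1 : dgr ((Fg G V R).comap φ) x =
        ((Pt V m).filter (fun y => (Fg G V R).Adj (φ x) y)).card := by
      have h3 : dgr ((Fg G V R).comap φ) x =
          ((univ.filter (fun y => ((Fg G V R).comap φ).Adj x y)).image φ).card := by
        rw [card_image_of_injective _ hφinj]
        unfold dgr
        congr
      rw [h3]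
      congr 1
      ext y
      simp only [mem_image, mem_filter, mem_univ, true_and, SimpleGraph.comap_adj]
      constructor
      · rintro ⟨b, hb, rfl⟩
        exact ⟨hφmem b, hb⟩
      · rintro ⟨hy, hxy⟩
        obtain ⟨b, rfl⟩ := hφsurj y hy
        exact ⟨b, hxy, rfl⟩
    have hx := (mem_Pt V m (φ x)).1 (hφmem x)
    have h2 := hGA N G V m a R r1 (φ x) (hφmem x)
    have h3 : ∑ v ∈ V.filter (fun v => G.Adj (φ x).1 v), a (φ x).1 v (φ x).2 =
        ∑ v : Fin N, a (φ x).1 v (φ x).2 := by
      refine sum_subset (subset_univ _) ?_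
      intro v _ hv
      have hz' : z (φ x).1 v = 0 := by
        apply hz0
        rintro ⟨_, g1, g2⟩
        exact hv (mem_filter.2 ⟨g1, g2⟩)
      have h4 := (ha (φ x).1 hx.1).1 v
      rw [hz'] at h4
      exact (sum_eq_zero_iff.1 h4) _ (mem_range.2 hx.2)
    rw [h1, h2, h3]
    exact (ha (φ x).1 hx.1).2.2 _ (mem_range.2 hx.2)
  · intro S hS
    set S1 := S.image φ with hS1
    have hS1c : S1.card = M * (4 * t * M ^ 2 * q) := by
      rw [hS1, card_image_of_injective _ hφinj, hS]
    have hS1sub : S1 ⊆ Pt V m := by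
      intro y hy
      rw [hS1, mem_image] at hy
      obtain ⟨x, _, rfl⟩ := hy
      exact hφmem x
    have hU : S1.card ≤ M * (S1.image Prod.fst).card := by
      refine card_le_mul_card_image S1 M ?_
      intro u hu
      rw [mem_image] at hu
      obtain ⟨y, hy, rfl⟩ := hu
      have hyV := ((mem_Pt V m y).1 (hS1sub hy)).1
      refine le_trans ?_ (hm _ hyV).2
      have hsub : (S1.filter (fun x => x.1 = y.1)).image Prod.snd ⊆ range (m y.1) := by
        intro i hi
        rw [mem_image] at hi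
        obtain ⟨w, hw, rfl⟩ := hi
        rw [mem_filter] at hw
        have := ((mem_Pt V m w).1 (hS1sub hw.1)).2
        rw [hw.2] at this
        exact mem_range.2 this
      have h1 := card_le_card hsub
      rw [card_image_of_injOn, card_range] at h1
      · exact h1
      · intro w hw w' hw' he
        rw [mem_coe, mem_filter] at hw hw'
        exact Prod.ext (by rw [hw.2, hw'.2]) he
    rw [hS1c] at hU
    have hU2 : 4 * t * M ^ 2 * q ≤ (S1.image Prod.fst).card :=
      Nat.le_of_mul_le_mul_left hU hM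
    obtain ⟨U, hU3, hU4⟩ := exists_subset_card_eq hU2
    have hch : ∀ u : Fin N, ∃ y : Fin N × ℕ, u ∈ U → (y ∈ S1 ∧ y.1 = u) := by
      intro u
      by_cases hu : u ∈ U
      · have := hU3 hu
        rw [mem_image] at this
        obtain ⟨y, hy, hy'⟩ := this
        exact ⟨y, fun _ => ⟨hy, hy'⟩⟩
      · exact ⟨(u, 0), fun h => absurd h hu⟩
    choose g hg using hch
    obtain ⟨x, hx, y, hy, hxy⟩ := r2 (U.image g) (by
        intro y hy
        rw [mem_image] at hy
        obtain ⟨u, hu, rfl⟩ := hy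
        exact hS1sub (hg u hu).1) (by
        intro x hx y hy hxy
        rw [mem_image] at hx hy
        obtain ⟨u, hu, rfl⟩ := hx
        obtain ⟨v, hv, rfl⟩ := hy
        rw [(hg u hu).2, (hg v hv).2] at hxy
        rw [hxy]) (by
        rw [card_image_of_injOn, hU4]
        intro u hu v hv huv
        have e1 := (hg u hu).2
        have e2 := (hg v hv).2
        rw [← e1, ← e2, huv])
    rw [mem_image] at hx hy
    obtain ⟨u, hu, rfl⟩ := hx
    obtain ⟨v, hv, rfl⟩ := hy
    have hx1 := (hg u hu).1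
    have hy1 := (hg v hv).1
    rw [hS1, mem_image] at hx1 hy1
    obtain ⟨x', hx', ex⟩ := hx1
    obtain ⟨y', hy', ey⟩ := hy1
    refine ⟨x', hx', y', hy', ?_⟩
    rw [SimpleGraph.comap_adj, ex, ey]
    exact hxy

end Pool.Agent.Helper95.RP.GCm
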