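import Pool.Agent.Helper95.RP.St

/-! # Module OV of project RP (MP_e0fa86_co): at most one vertex is deleted -/

namespace Pool.Agent.Helper95.RP.OVm

open Pool.Agent.Helper95.RP Finset
open scoped Classical

theorem hOV : OV := by
  intro h D s T n K hn hh hK hD hT
  have hle : n ≤ 2 * h := by omega
  have hinj : Function.Injective (Fin.castLE hle) := Fin.castLE_injective hle
  refine ⟨K.comap (Fin.castLE hle), ?_, ?_, ?_⟩
  · exact hK.comap ⟨(SimpleGraph.Embedding.comap ⟨Fin.castLE hle, hinj⟩ K).toCopy⟩
  · have key : ∀ x : Fin n, dgr (K.comap (Fin.castLE hle)) x ≤ D ∧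
        D ≤ dgr (K.comap (Fin.castLE hle)) x + (2 * h - n) := by
      intro x
      have h1 := hD (Fin.castLE hle x)
      have h2 : (univ.filter (fun y => K.Adj (Fin.castLE hle x) y)) =
          ((univ.filter (fun y => (K.comap (Fin.castLE hle)).Adj x y)).image (Fin.castLE hle)) ∪
          (univ.filter (fun y : Fin (2 * h) => K.Adj (Fin.castLE hle x) y ∧ n ≤ y.val)) := by
        ext y
        simp only [mem_filter, mem_univ, true_and, mem_union, mem_image, SimpleGraph.comap_adj]
        constructor
        · intro hy
          rcases Nat.lt_or_ge y.val n with hlt | hge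
          · left
            refine ⟨⟨y.val, hlt⟩, ?_, ?_⟩
            · have e : Fin.castLE hle ⟨y.val, hlt⟩ = y := Fin.ext rfl
              rw [e]
              exact hy
            · exact Fin.ext rfl
          · right
            exact ⟨hy, hge⟩
        · rintro (⟨a, ha, rfl⟩ | ⟨ha, _⟩)
          · exact ha
          · exact ha
      have h3 : (univ.filter (fun y : Fin (2 * h) =>
          K.Adj (Fin.castLE hle x) y ∧ n ≤ y.val)).card ≤ 2 * h - n := by
        have hsub : (univ.filter (fun y : Fin (2 * h) =>
            K.Adj (Fin.castLE hle x) y ∧ n ≤ y.val)).image (fun y => y.val) ⊆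
            Finset.Ico n (2 * h) := by
          intro z hz
          simp only [mem_image, mem_filter, mem_univ, true_and] at hz
          obtain ⟨y, hy, rfl⟩ := hz
          exact mem_Ico.2 ⟨hy.2, y.isLt⟩
        have hc := card_le_card hsub
        rw [card_image_of_injective _ Fin.val_injective, Nat.card_Ico] at hc
        exact hc
      have h4 : ((univ.filter (fun y => (K.comap (Fin.castLE hle)).Adj x y)).image
          (Fin.castLE hle)).card = dgr (K.comap (Fin.castLE hle)) x := by
        rw [card_image_of_injective _ hinj]
        unfold dgr
        congr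
      have h5 : dgr K (Fin.castLE hle x) = (univ.filter (fun y =>
          K.Adj (Fin.castLE hle x) y)).card := by
        unfold dgr
        congr
      rw [h5, h2] at h1
      constructor
      · rw [← h4, ← h1]
        exact card_le_card subset_union_left
      · rw [← h1]
        refine (card_union_le _ _).trans ?_
        rw [h4]
        omega
    intro x y
    have h1 := key x
    have h2 := key y
    omega
  · intro S hS
    obtain ⟨x, hx, y, hy, hxy⟩ := hT (S.image (Fin.castLE hle)) (by
      rw [card_image_of_injective _ hinj, hS])
    rw [mem_image] at hx hy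
    obtain ⟨x', hx', rfl⟩ := hx
    obtain ⟨y', hy', rfl⟩ := hy
    exact ⟨x', hx', y', hy', hxy⟩

end Pool.Agent.Helper95.RP.OVm
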