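import Pool.Agent.Helper95.RP.M_SW

/-! # Module ST of project RP (MP_e0fa86_co): switching -/

namespace Pool.Agent.Helper95.RP.STm

open Pool.Agent.Helper95.RP Finset
open scoped Classical

theorem cfi {S : Finset (ℕ × ℕ)} {p : ℕ × ℕ} (hp : p ∉ S) (P : ℕ × ℕ → Prop)
    [DecidablePred P] :
    ((insert p S).filter P).card = (S.filter P).card + if P p then 1 else 0 := by
  rw [filter_insert]
  split_ifs with h
  · rw [card_insert_of_notMem]
    exact fun hin => hp (mem_filter.1 hin).1
  · rfl

theorem switch {m m' : ℕ} {a b : ℕ → ℕ} {R : Finset (ℕ × ℕ)} (hR : Bip m m' a b R)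
    {x y x' y' : ℕ} (h1 : (x, y) ∈ R) (h2 : (x', y') ∈ R) (h3 : (x, y') ∉ R)
    (h4 : (x', y) ∉ R) :
    Bip m m' a b (insert (x, y') (insert (x', y) ((R.erase (x, y)).erase (x', y')))) := by
  have hxx : x ≠ x' := by
    rintro rfl
    exact h3 h2
  have hyy : y ≠ y' := by
    rintro rfl
    exact h3 h1
  obtain ⟨b1, b2, b3⟩ := hR
  have key : ∀ (P : ℕ × ℕ → Prop) [DecidablePred P],
      ((insert (x, y') (insert (x', y) ((R.erase (x, y)).erase (x', y')))).filter P).card +
        ((if P (x, y) then 1 else 0) + (if P (x', y') then 1 else 0)) =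
      (R.filter P).card + ((if P (x, y') then 1 else 0) + (if P (x', y) then 1 else 0)) := by
    intro P _
    have e1 : R = insert (x, y) (insert (x', y') ((R.erase (x, y)).erase (x', y'))) := by
      rw [insert_erase, insert_erase h1]
      rw [mem_erase]
      exact ⟨fun e => hxx (Prod.mk.inj e).1.symm, h2⟩
    have n1 : (x, y') ∉ insert (x', y) ((R.erase (x, y)).erase (x', y')) := by
      rw [mem_insert, mem_erase, mem_erase]
      rintro (e | ⟨_, _, e⟩)
      · exact hxx (Prod.mk.inj e).1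
      · exact h3 e
    have n2 : (x', y) ∉ (R.erase (x, y)).erase (x', y') := by
      rw [mem_erase, mem_erase]
      rintro ⟨_, _, e⟩
      exact h4 e
    have n3 : (x, y) ∉ insert (x', y') ((R.erase (x, y)).erase (x', y')) := by
      rw [mem_insert, mem_erase, mem_erase]
      rintro (e | ⟨_, e, _⟩)
      · exact hxx (Prod.mk.inj e).1
      · exact e rfl
    have n4 : (x', y') ∉ (R.erase (x, y)).erase (x', y') := notMem_erase _ _
    have c1 := cfi n1 P
    have c2 := cfi n2 P
    have c3 := cfi n3 P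
    have c4 := cfi n4 P
    rw [← e1] at c3
    omega
  refine ⟨?_, ?_, ?_⟩
  · have hxy := mem_product.1 (b1 h1)
    have hxy' := mem_product.1 (b1 h2)
    intro p hp
    rw [mem_insert, mem_insert, mem_erase, mem_erase] at hp
    rcases hp with rfl | rfl | ⟨_, _, hp⟩
    · exact mem_product.2 ⟨hxy.1, hxy'.2⟩
    · exact mem_product.2 ⟨hxy'.1, hxy.2⟩
    · exact b1 hp
  · intro r hr
    have := key (fun p => p.1 = r)
    simp only at this
    have h5 := b2 r hr
    omega
  · intro r hr
    have := key (fun p => p.2 = r)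
    simp only at this
    have h5 := b3 r hr
    omega

theorem row_pos (m z : ℕ) (a : ℕ → ℕ) (hs : ∑ x ∈ range m, a x = z)
    (hb : ∀ x ∈ range m, ∀ x' ∈ range m, a x ≤ a x' + 1) (hmz : m ≤ z) :
    ∀ x ∈ range m, 1 ≤ a x := by
  intro x hx
  by_contra hc
  have h0 : a x = 0 := by omega
  have h1 : ∑ x' ∈ (range m).erase x, a x' ≤ ∑ x' ∈ (range m).erase x, 1 :=
    sum_le_sum (fun x' hx' => by
      have := hb x' (mem_of_mem_erase hx') x hx
      omega)
  rw [sum_const, card_erase_of_mem hx, card_range, smul_eq_mul, mul_one] at h1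
  have h2 : ∑ x' ∈ (range m).erase x, a x' + a x = z := by
    rw [sum_erase_add _ _ hx, hs]
  have := mem_range.1 hx
  omega

theorem hST : ST := by
  intro m m' z a b R hR ha hb hab hbb hmz hmz' hz x0 hx0 y0 hy0
  by_cases h00 : (x0, y0) ∈ R
  · exact ⟨R, hR, h00⟩
  have ra := SWm.row_bound m z a ha hab hmz
  have rb := SWm.row_bound m' z b hb hbb hmz'
  have pa := row_pos m z a ha hab hmz
  have pb := row_pos m' z b hb hbb hmz'
  obtain ⟨b1, b2, b3⟩ := hR
  have hm : 1 ≤ m := by
    have := mem_range.1 hx0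
    omega
  have hm' : 1 ≤ m' := by
    have := mem_range.1 hy0
    omega
  obtain ⟨y1, h01⟩ : ∃ y1, (x0, y1) ∈ R := by
    have h1 := b2 x0 hx0
    have h2 := pa x0 hx0
    obtain ⟨p, hp⟩ := card_pos.1 (by omega : 0 < (R.filter (fun p => p.1 = x0)).card)
    rw [mem_filter] at hp
    exact ⟨p.2, by rw [← hp.2]; exact hp.1⟩
  obtain ⟨x1, h10⟩ : ∃ x1, (x1, y0) ∈ R := by
    have h1 := b3 y0 hy0
    have h2 := pb y0 hy0
    obtain ⟨p, hp⟩ := card_pos.1 (by omega : 0 < (R.filter (fun p => p.2 = y0)).card)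
    rw [mem_filter] at hp
    exact ⟨p.1, by rw [← hp.2]; exact hp.1⟩
  have hx01 : x0 ≠ x1 := by
    rintro rfl
    exact h00 h10
  have hy01 : y0 ≠ y1 := by
    rintro rfl
    exact h00 h01
  by_cases h11 : (x1, y1) ∈ R
  · -- find the detour
    have hcard : R.card = z := by
      rw [← ha, card_eq_sum_card_fiberwise (f := Prod.fst) (t := range m)
        (fun p hp => (mem_product.1 (b1 hp)).1)]
      exact sum_congr rfl (fun x hx => b2 x hx)
    obtain ⟨α, hα⟩ : ∃ α, α = (2 * z - 1) / m := ⟨_, rfl⟩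
    obtain ⟨β, hβ⟩ : ∃ β, β = (2 * z - 1) / m' := ⟨_, rfl⟩
    have ma : m * α ≤ 2 * z - 1 := by
      rw [hα]
      exact Nat.mul_div_le _ _
    have mb : m' * β ≤ 2 * z - 1 := by
      rw [hβ]
      exact Nat.mul_div_le _ _
    have la : ∀ x ∈ range m, a x ≤ α := by
      intro x hx
      rw [hα, Nat.le_div_iff_mul_le (by omega)]
      have := ra x hx
      rw [mul_comm]
      omega
    have lb : ∀ x ∈ range m', b x ≤ β := by
      intro x hx
      rw [hβ, Nat.le_div_iff_mul_le (by omega)]
      have := rb x hx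
      rw [mul_comm]
      omega
    have hx1 : x1 ∈ range m := (mem_product.1 (b1 h10)).1
    have hy1 : y1 ∈ range m' := (mem_product.1 (b1 h01)).2
    have bad1 : (R.filter (fun p => (x1, p.2) ∈ R)).card ≤ α * β := by
      have hsub : R.filter (fun p => (x1, p.2) ∈ R) ⊆
          (R.filter (fun p => p.1 = x1)).biUnion (fun p' => R.filter (fun p => p.2 = p'.2)) := by
        intro p hp
        rw [mem_filter] at hp
        rw [mem_biUnion]
        exact ⟨(x1, p.2), mem_filter.2 ⟨hp.2, rfl⟩, mem_filter.2 ⟨hp.1, rfl⟩⟩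
      refine (card_le_card hsub).trans ((card_biUnion_le_card_mul _ _ β ?_).trans ?_)
      · intro p hp
        rw [mem_filter] at hp
        have hp2 : p.2 ∈ range m' := (mem_product.1 (b1 hp.1)).2
        rw [b3 p.2 hp2]
        exact lb _ hp2
      · rw [b2 x1 hx1]
        exact Nat.mul_le_mul_right _ (la x1 hx1)
    have bad2 : (R.filter (fun p => (p.1, y1) ∈ R)).card ≤ α * β := by
      have hsub : R.filter (fun p => (p.1, y1) ∈ R) ⊆
          (R.filter (fun p => p.2 = y1)).biUnion (fun p' => R.filter (fun p => p.1 = p'.1)) := by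
        intro p hp
        rw [mem_filter] at hp
        rw [mem_biUnion]
        exact ⟨(p.1, y1), mem_filter.2 ⟨hp.2, rfl⟩, mem_filter.2 ⟨hp.1, rfl⟩⟩
      refine (card_le_card hsub).trans ((card_biUnion_le_card_mul _ _ α ?_).trans ?_)
      · intro p hp
        rw [mem_filter] at hp
        have hp2 : p.1 ∈ range m := (mem_product.1 (b1 hp.1)).1
        rw [b2 p.1 hp2]
        exact la _ hp2
      · rw [b3 y1 hy1, mul_comm]
        exact Nat.mul_le_mul_left _ (lb y1 hy1)
    have hz1 : 1 ≤ z := by omega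
    have hsmall : 2 * (α * β) < z := by
      have e1 : (m * α) * (m' * β) ≤ (2 * z - 1) * (2 * z - 1) := Nat.mul_le_mul ma mb
      have e2 : (2 * z - 1) * (2 * z - 1) < 2 * z * (2 * z) := by
        have : 2 * z - 1 < 2 * z := by omega
        exact Nat.mul_lt_mul_of_lt_of_lt this this
      have e3 : (m * m') * (2 * (α * β)) < (m * m') * z := by
        calc (m * m') * (2 * (α * β)) = 2 * ((m * α) * (m' * β)) := by ring
          _ < 2 * (2 * z * (2 * z)) := by omega
          _ = 8 * z * z := by ring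
          _ ≤ (m * m') * z := Nat.mul_le_mul_right _ hz
      exact Nat.lt_of_mul_lt_mul_left e3
    obtain ⟨p, hpR, hpn⟩ : ∃ p ∈ R, p ∉ (R.filter (fun p => (x1, p.2) ∈ R)) ∪
        (R.filter (fun p => (p.1, y1) ∈ R)) := by
      by_contra hc
      push Not at hc
      have hsub : R ⊆ (R.filter (fun p => (x1, p.2) ∈ R)) ∪
        (R.filter (fun p => (p.1, y1) ∈ R)) := fun p hp => hc p hp
      have h1 := card_le_card hsub
      have h2 := card_union_le (R.filter (fun p => (x1, p.2) ∈ R))
        (R.filter (fun p => (p.1, y1) ∈ R))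
      omega
    obtain ⟨x2, y2⟩ := p
    rw [mem_union, mem_filter, mem_filter, not_or] at hpn
    have h12 : (x1, y2) ∉ R := fun h => hpn.1 ⟨hpR, h⟩
    have h21 : (x2, y1) ∉ R := fun h => hpn.2 ⟨hpR, h⟩
    have hy21 : y2 ≠ y1 := by
      rintro rfl
      exact h12 h11
    have hx21 : x2 ≠ x1 := by
      rintro rfl
      exact h21 h11
    have hs1 := switch ⟨b1, b2, b3⟩ h11 hpR h12 h21
    have m1 : (x0, y1) ∈ insert (x1, y2) (insert (x2, y1) ((R.erase (x1, y1)).erase (x2, y2))) := by
      rw [mem_insert, mem_insert, mem_erase, mem_erase]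
      exact Or.inr (Or.inr ⟨fun e => hy21 (Prod.mk.inj e).2.symm,
        fun e => hx01 (Prod.mk.inj e).1, h01⟩)
    have m2 : (x1, y0) ∈ insert (x1, y2) (insert (x2, y1) ((R.erase (x1, y1)).erase (x2, y2))) := by
      rw [mem_insert, mem_insert, mem_erase, mem_erase]
      exact Or.inr (Or.inr ⟨fun e => hx21 (Prod.mk.inj e).1.symm,
        fun e => hy01 (Prod.mk.inj e).2, h10⟩)
    have m3 : (x0, y0) ∉ insert (x1, y2) (insert (x2, y1) ((R.erase (x1, y1)).erase (x2, y2))) := by
      rw [mem_insert, mem_insert, mem_erase, mem_erase]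
      rintro (e | e | ⟨_, _, e⟩)
      · exact hx01 (Prod.mk.inj e).1
      · exact hy01 (Prod.mk.inj e).2
      · exact h00 e
    have m4 : (x1, y1) ∉ insert (x1, y2) (insert (x2, y1) ((R.erase (x1, y1)).erase (x2, y2))) := by
      rw [mem_insert, mem_insert, mem_erase, mem_erase]
      rintro (e | e | ⟨_, e, _⟩)
      · exact hy21 (Prod.mk.inj e).2.symm
      · exact hx21 (Prod.mk.inj e).1.symm
      · exact e rfl
    exact ⟨_, switch hs1 m1 m2 m3 m4, mem_insert_self _ _⟩
  · exact ⟨_, switch ⟨b1, b2, b3⟩ h01 h10 h00 h11, mem_insert_self _ _⟩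

end Pool.Agent.Helper95.RP.STm
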