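import Pool.Agent.Helper95.RP.St

/-! # Module SW of project RP (MP_e0fa86_co): a small family which covers all cells -/

namespace Pool.Agent.Helper95.RP.SWm

open Pool.Agent.Helper95.RP Finset
open scoped Classical

theorem row_bound (m z : ℕ) (a : ℕ → ℕ) (hs : ∑ x ∈ range m, a x = z)
    (hb : ∀ x ∈ range m, ∀ x' ∈ range m, a x ≤ a x' + 1) (hmz : m ≤ z) :
    ∀ x ∈ range m, m * a x < 2 * z := by
  intro x hx
  have hm : 1 ≤ m := by
    have := mem_range.1 hx
    omega
  have h1 : ∑ x' ∈ (range m).erase x, a x ≤ ∑ x' ∈ (range m).erase x, (a x' + 1) :=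
    sum_le_sum (fun x' hx' => hb x hx x' (mem_of_mem_erase hx'))
  rw [sum_add_distrib, sum_const, sum_const, card_erase_of_mem hx, card_range, smul_eq_mul,
    smul_eq_mul, mul_one] at h1
  have h2 : ∑ x' ∈ (range m).erase x, a x' + a x = z := by
    rw [sum_erase_add _ _ hx, hs]
  obtain ⟨k, rfl⟩ : ∃ k, m = k + 1 := ⟨m - 1, by omega⟩
  have h3 : (k + 1) * a x = k * a x + a x := by ring
  simp only [Nat.add_sub_cancel] at h1
  omega

theorem hSW : SW := by
  intro hBG hST m m' M z a b hm hmM hm' hmM' ha hb hab hbb hmz hmz' hz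
  have h1 := row_bound m z a ha hab hmz
  have hle : ∀ x ∈ range m, a x ≤ m' := by
    intro x hx
    have h2 := h1 x hx
    by_contra hc
    push Not at hc
    have h3 : m * m' ≤ m * a x := Nat.mul_le_mul_left _ hc.le
    omega
  obtain ⟨R, hR⟩ := hBG m m' a b hle (by rw [ha, hb]) hbb
  have hex : ∀ p : ℕ × ℕ, ∃ R' : Finset (ℕ × ℕ), Bip m m' a b R' ∧
      (p ∈ range m ×ˢ range m' → p ∈ R') := by
    intro p
    by_cases hp : p ∈ range m ×ˢ range m'
    · rw [mem_product] at hp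
      obtain ⟨R', h2, h3⟩ := hST m m' z a b R hR ha hb hab hbb hmz hmz' hz p.1 hp.1 p.2 hp.2
      exact ⟨R', h2, fun _ => h3⟩
    · exact ⟨R, hR, fun h => absurd h hp⟩
  choose F hF1 hF2 using hex
  refine ⟨(range m ×ˢ range m').image F, ?_, ?_, ?_, ?_⟩
  · refine Nonempty.image ⟨(0, 0), ?_⟩ _
    rw [mem_product, mem_range, mem_range]
    exact ⟨by omega, by omega⟩
  · refine card_image_le.trans ?_
    rw [card_product, card_range, card_range, pow_two]
    exact Nat.mul_le_mul hmM hmM'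
  · intro R' hR'
    rw [mem_image] at hR'
    obtain ⟨p, _, rfl⟩ := hR'
    exact hF1 p
  · intro x0 hx0 y0 hy0
    have hp : (x0, y0) ∈ range m ×ˢ range m' := mem_product.2 ⟨hx0, hy0⟩
    exact ⟨F (x0, y0), mem_image_of_mem _ hp, hF2 _ hp⟩

end Pool.Agent.Helper95.RP.SWm
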