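import Pool.Agent.Helper95.RP.St

/-! # Module TA of project RP (MP_e0fa86_co): the edges between the two copies -/

namespace Pool.Agent.Helper95.RP.TAm

open Pool.Agent.Helper95.RP Finset
open scoped Classical

variable {h : ℕ}

def Good (H : SimpleGraph (Fin h)) (f : Fin h → ℕ) (B : Finset (Fin h × Fin h)) : Prop :=
  (∀ i, (B.filter (fun p => p.1 = i)).card ≤ f i) ∧
  (∀ j, (B.filter (fun p => p.2 = j)).card ≤ f j) ∧
  (∀ p ∈ B, ∀ p' ∈ B, p.1 = p'.1 → ¬ H.Adj p.2 p'.2) ∧
  (∀ p ∈ B, ∀ p' ∈ B, p.2 = p'.2 → ¬ H.Adj p.1 p'.1)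

noncomputable def FC (H : SimpleGraph (Fin h)) (B : Finset (Fin h × Fin h)) (i0 : Fin h) :
    Finset (Fin h) :=
  univ.filter (fun l => (i0, l) ∈ B ∨ (∃ j', (i0, j') ∈ B ∧ H.Adj j' l) ∨
    (∃ i', H.Adj i0 i' ∧ (i', l) ∈ B))

theorem good_insert {H : SimpleGraph (Fin h)} {f : Fin h → ℕ} {B : Finset (Fin h × Fin h)}
    {i l : Fin h} (hB : Good H f B) (h1 : (B.filter (fun p => p.1 = i)).card < f i)
    (h2 : (B.filter (fun p => p.2 = l)).card < f l) (h3 : l ∉ FC H B i) :
    Good H f (insert (i, l) B) := by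
  obtain ⟨g1, g2, g3, g4⟩ := hB
  have h3' : (i, l) ∉ B ∧ (∀ j', (i, j') ∈ B → ¬ H.Adj j' l) ∧
      (∀ i', H.Adj i i' → (i', l) ∉ B) := by
    unfold FC at h3
    simp only [mem_filter, mem_univ, true_and, not_or, not_exists, not_and] at h3
    exact h3
  obtain ⟨_, k2, k3⟩ := h3'
  refine ⟨?_, ?_, ?_, ?_⟩
  · intro i'
    rw [filter_insert]
    split_ifs with hi
    · have hi' : i = i' := hi
      subst hi'
      exact (card_insert_le _ _).trans h1
    · exact g1 i'
  · intro j'
    rw [filter_insert]
    split_ifs with hi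
    · have hi' : l = j' := hi
      subst hi'
      exact (card_insert_le _ _).trans h2
    · exact g2 j'
  · intro p hp p' hp' he hadj
    rw [mem_insert] at hp hp'
    rcases hp with rfl | hp
    · rcases hp' with rfl | hp'
      · exact H.loopless.irrefl _ hadj
      · have : (i, p'.2) ∈ B := by
          have e : p' = (i, p'.2) := Prod.ext he.symm rfl
          rwa [← e]
        exact k2 _ this hadj.symm
    · rcases hp' with rfl | hp'
      · have : (i, p.2) ∈ B := by
          have e : p = (i, p.2) := Prod.ext he rfl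
          rwa [← e]
        exact k2 _ this hadj
      · exact g3 p hp p' hp' he hadj
  · intro p hp p' hp' he hadj
    rw [mem_insert] at hp hp'
    rcases hp with rfl | hp
    · rcases hp' with rfl | hp'
      · exact H.loopless.irrefl _ hadj
      · have : (p'.1, l) ∈ B := by
          have e : p' = (p'.1, l) := Prod.ext rfl he.symm
          rwa [← e]
        exact k3 _ hadj this
    · rcases hp' with rfl | hp'
      · have : (p.1, l) ∈ B := by
          have e : p = (p.1, l) := Prod.ext rfl he
          rwa [← e]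
        exact k3 _ hadj.symm this
      · exact g4 p hp p' hp' he hadj

theorem good_mono {H : SimpleGraph (Fin h)} {f : Fin h → ℕ} {B B' : Finset (Fin h × Fin h)}
    (hB : Good H f B) (hs : B' ⊆ B) : Good H f B' := by
  obtain ⟨g1, g2, g3, g4⟩ := hB
  refine ⟨fun i => (card_le_card (filter_subset_filter _ hs)).trans (g1 i),
    fun i => (card_le_card (filter_subset_filter _ hs)).trans (g2 i), ?_, ?_⟩
  · intro p hp p' hp'
    exact g3 p (hs hp) p' (hs hp')
  · intro p hp p' hp'
    exact g4 p (hs hp) p' (hs hp')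

theorem card_FC {H : SimpleGraph (Fin h)} {B : Finset (Fin h × Fin h)} {D : ℕ}
    (hr : ∀ i, (B.filter (fun p => p.1 = i)).card ≤ 4) (hd : ∀ i, dgr H i ≤ D) (i0 : Fin h) :
    (FC H B i0).card ≤ 8 * D + 4 := by
  have hrow : ∀ i, (univ.filter (fun l => (i, l) ∈ B)).card ≤ 4 := by
    intro i
    refine le_trans ?_ (hr i)
    have : (univ.filter (fun l => (i, l) ∈ B)).image (fun l => (i, l)) ⊆
        B.filter (fun p => p.1 = i) := by
      intro p hp
      simp only [mem_image, mem_filter, mem_univ, true_and] at hp ⊢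
      obtain ⟨l, hl, rfl⟩ := hp
      exact ⟨hl, rfl⟩
    have h2 := card_le_card this
    rwa [card_image_of_injective _ (fun a b hab => (Prod.mk.inj hab).2)] at h2
  have hsub : FC H B i0 ⊆ (univ.filter (fun l => (i0, l) ∈ B)) ∪
      (((univ.filter (fun l => (i0, l) ∈ B)).biUnion
        (fun j' => univ.filter (fun l => H.Adj j' l))) ∪
       ((univ.filter (fun i' => H.Adj i0 i')).biUnion
        (fun i' => univ.filter (fun l => (i', l) ∈ B)))) := by
    intro l hl
    unfold FC at hl
    simp only [mem_filter, mem_univ, true_and] at hl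
    simp only [mem_union, mem_biUnion, mem_filter, mem_univ, true_and]
    rcases hl with h1 | ⟨j', h1, h2⟩ | ⟨i', h1, h2⟩
    · exact Or.inl h1
    · exact Or.inr (Or.inl ⟨j', h1, h2⟩)
    · exact Or.inr (Or.inr ⟨i', h1, h2⟩)
  have c1 := card_le_card hsub
  have c2 := card_union_le (univ.filter (fun l => (i0, l) ∈ B))
      (((univ.filter (fun l => (i0, l) ∈ B)).biUnion
        (fun j' => univ.filter (fun l => H.Adj j' l))) ∪
       ((univ.filter (fun i' => H.Adj i0 i')).biUnion
        (fun i' => univ.filter (fun l => (i', l) ∈ B))))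
  have c3 := card_union_le (((univ.filter (fun l => (i0, l) ∈ B)).biUnion
        (fun j' => univ.filter (fun l => H.Adj j' l))))
       ((univ.filter (fun i' => H.Adj i0 i')).biUnion
        (fun i' => univ.filter (fun l => (i', l) ∈ B)))
  have c4 : ((univ.filter (fun l => (i0, l) ∈ B)).biUnion
        (fun j' => univ.filter (fun l => H.Adj j' l))).card ≤
        (univ.filter (fun l => (i0, l) ∈ B)).card * D := by
    refine card_biUnion_le_card_mul _ _ _ ?_
    intro j' _
    exact hd j'
  have c5 : ((univ.filter (fun i' => H.Adj i0 i')).biUnion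
        (fun i' => univ.filter (fun l => (i', l) ∈ B))).card ≤
        (univ.filter (fun i' => H.Adj i0 i')).card * 4 := by
    refine card_biUnion_le_card_mul _ _ _ ?_
    intro j' _
    exact hrow j'
  have c6 : (univ.filter (fun i' => H.Adj i0 i')).card ≤ D := hd i0
  have c7 := hrow i0
  have c8 : (univ.filter (fun l => (i0, l) ∈ B)).card * D ≤ 4 * D := Nat.mul_le_mul_right _ c7
  omega

theorem mem_swap (B : Finset (Fin h × Fin h)) (a b : Fin h) :
    (a, b) ∈ B.image Prod.swap ↔ (b, a) ∈ B := by
  simp only [mem_image]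
  constructor
  · rintro ⟨p, hp, he⟩
    have : p = (b, a) := by
      rw [← Prod.swap_swap p, he]
      rfl
    rwa [← this]
  · intro hb
    exact ⟨(b, a), hb, rfl⟩

theorem card_swap (B : Finset (Fin h × Fin h)) (i : Fin h) :
    ((B.image Prod.swap).filter (fun p => p.1 = i)).card = (B.filter (fun p => p.2 = i)).card := by
  have : (B.image Prod.swap).filter (fun p => p.1 = i) =
      (B.filter (fun p => p.2 = i)).image Prod.swap := by
    ext ⟨a, b⟩
    rw [mem_filter, mem_swap, mem_swap, mem_filter]
  rw [this, card_image_of_injective _ Prod.swap_injective]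

theorem hTA : TA := by
  intro h D H f hf hD hh
  have hd : ∀ i, dgr H i ≤ D := fun i => by
    have := hD i
    omega
  obtain ⟨B, hBmem, hBmax⟩ := exists_max_image
    ((univ : Finset (Finset (Fin h × Fin h))).filter (Good H f)) Finset.card
    ⟨∅, by
      rw [mem_filter]
      refine ⟨mem_univ _, ?_, ?_, ?_, ?_⟩
      · intro i
        simp
      · intro i
        simp
      · intro p hp
        simp at hp
      · intro p hp
        simp at hp⟩
  have hB : Good H f B := (mem_filter.1 hBmem).2
  have hmax : ∀ B', Good H f B' → B'.card ≤ B.card := fun B' h' =>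
    hBmax B' (mem_filter.2 ⟨mem_univ _, h'⟩)
  obtain ⟨g1, g2, g3, g4⟩ := hB
  have hrow : B.card = ∑ i, (B.filter (fun p => p.1 = i)).card :=
    card_eq_sum_card_fiberwise (fun _ _ => mem_univ _)
  have hcol : B.card = ∑ i, (B.filter (fun p => p.2 = i)).card :=
    card_eq_sum_card_fiberwise (fun _ _ => mem_univ _)
  by_cases hcase : B.card = ∑ i, f i
  · refine ⟨B, ?_, ?_, g3, g4⟩
    · intro i
      have := (sum_eq_sum_iff_of_le (s := univ) (fun i _ => g1 i)).1 (by rw [← hrow, hcase])
      exact this i (mem_univ _)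
    · intro i
      have := (sum_eq_sum_iff_of_le (s := univ) (fun i _ => g2 i)).1 (by rw [← hcol, hcase])
      exact this i (mem_univ _)
  exfalso
  have hle : B.card ≤ ∑ i, f i := by
    rw [hrow]
    exact sum_le_sum (fun i _ => g1 i)
  have hlt : B.card < ∑ i, f i := lt_of_le_of_ne hle hcase
  obtain ⟨i0, _, hi0⟩ : ∃ i ∈ (univ : Finset (Fin h)), (B.filter (fun p => p.1 = i)).card < f i := by
    rw [hrow] at hlt
    exact exists_lt_of_sum_lt hlt
  obtain ⟨j0, _, hj0⟩ : ∃ i ∈ (univ : Finset (Fin h)), (B.filter (fun p => p.2 = i)).card < f i := by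
    rw [hcol] at hlt
    exact exists_lt_of_sum_lt hlt
  set C := FC H B i0 with hC
  set R := FC H (B.image Prod.swap) j0 with hR
  have hCc : C.card ≤ 8 * D + 4 := card_FC (fun i => (g1 i).trans (hf i).2) hd i0
  have hRc : R.card ≤ 8 * D + 4 := card_FC (fun i => by
    rw [card_swap]
    exact (g2 i).trans (hf i).2) hd j0
  -- the columns outside `C` are full
  have hfull : ∀ l, l ∉ C → (B.filter (fun p => p.2 = l)).card = f l := by
    intro l hl
    by_contra hne
    have hlt' : (B.filter (fun p => p.2 = l)).card < f l := lt_of_le_of_ne (g2 l) hne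
    have hg := good_insert ⟨g1, g2, g3, g4⟩ hi0 hlt' hl
    have hm := hmax _ hg
    have hn : (i0, l) ∉ B := by
      intro hin
      apply hl
      rw [hC]
      unfold FC
      rw [mem_filter]
      exact ⟨mem_univ _, Or.inl hin⟩
    rw [card_insert_of_notMem hn] at hm
    omega
  have hRmem : ∀ k, k ∉ R → (k, j0) ∉ B ∧ (∀ i', (i', j0) ∈ B → ¬ H.Adj i' k) ∧
      (∀ j', H.Adj j0 j' → (k, j') ∉ B) := by
    intro k hk
    rw [hR] at hk
    unfold FC at hk
    simp only [mem_filter, mem_univ, true_and, not_or, not_exists, not_and] at hk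
    refine ⟨?_, ?_, ?_⟩
    · intro hin
      exact hk.1 ((mem_swap B j0 k).2 hin)
    · intro i' hi'
      exact hk.2.1 i' ((mem_swap B j0 i').2 hi')
    · intro j' hj' hin
      exact hk.2.2 j' hj' ((mem_swap B j' k).2 hin)
  have hi0R : i0 ∈ R := by
    by_contra hk
    obtain ⟨r1, r2, r3⟩ := hRmem i0 hk
    have hnot : j0 ∉ FC H B i0 := by
      unfold FC
      simp only [mem_filter, mem_univ, true_and, not_or, not_exists, not_and]
      refine ⟨r1, ?_, ?_⟩
      · intro j' hj' hadj
        exact r3 j' hadj.symm hj'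
      · intro i' hi' hin
        exact r2 i' hin hi'.symm
    have := hfull j0 hnot
    omega
  have hj0C : j0 ∈ C := by
    by_contra hk
    have := hfull j0 hk
    omega
  -- counting
  have hbig : 8 * (8 * D + 4) < B.card := by
    have e1 : ∑ i ∈ univ \ C, 1 ≤ ∑ i ∈ univ \ C, (B.filter (fun p => p.2 = i)).card := by
      refine sum_le_sum ?_
      intro i hi
      rw [mem_sdiff] at hi
      rw [hfull i hi.2]
      exact (hf i).1
    have e2 : ∑ i ∈ univ \ C, (B.filter (fun p => p.2 = i)).card ≤ B.card := by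
      rw [hcol]
      exact sum_le_sum_of_subset (subset_univ _)
    rw [sum_const, smul_eq_mul, mul_one, card_sdiff_of_subset (subset_univ _), card_univ,
      Fintype.card_fin] at e1
    omega
  have hcntC : (B.filter (fun p => p.2 ∈ C)).card ≤ 4 * (8 * D + 4) := by
    have e1 : (B.filter (fun p => p.2 ∈ C)).card ≤ C.card * 4 := by
      have : B.filter (fun p => p.2 ∈ C) ⊆ C.biUnion (fun l => B.filter (fun p => p.2 = l)) := by
        intro p hp
        rw [mem_filter] at hp
        rw [mem_biUnion]
        exact ⟨p.2, hp.2, mem_filter.2 ⟨hp.1, rfl⟩⟩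
      refine (card_le_card this).trans (card_biUnion_le_card_mul _ _ _ ?_)
      intro l _
      exact (g2 l).trans (hf l).2
    omega
  have hcntR : (B.filter (fun p => p.1 ∈ R)).card ≤ 4 * (8 * D + 4) := by
    have e1 : (B.filter (fun p => p.1 ∈ R)).card ≤ R.card * 4 := by
      have : B.filter (fun p => p.1 ∈ R) ⊆ R.biUnion (fun l => B.filter (fun p => p.1 = l)) := by
        intro p hp
        rw [mem_filter] at hp
        rw [mem_biUnion]
        exact ⟨p.1, hp.2, mem_filter.2 ⟨hp.1, rfl⟩⟩
      refine (card_le_card this).trans (card_biUnion_le_card_mul _ _ _ ?_)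
      intro l _
      exact (g1 l).trans (hf l).2
    omega
  obtain ⟨p, hpB, hpn⟩ : ∃ p ∈ B, p ∉ (B.filter (fun p => p.2 ∈ C)) ∪
      (B.filter (fun p => p.1 ∈ R)) := by
    by_contra hc
    push Not at hc
    have hsub : B ⊆ (B.filter (fun p => p.2 ∈ C)) ∪ (B.filter (fun p => p.1 ∈ R)) :=
      fun p hp => hc p hp
    have := card_le_card hsub
    have := card_union_le (B.filter (fun p => p.2 ∈ C)) (B.filter (fun p => p.1 ∈ R))
    omega
  obtain ⟨k, l⟩ := p
  rw [mem_union, mem_filter, mem_filter, not_or] at hpn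
  have hl : l ∉ C := fun hin => hpn.1 ⟨hpB, hin⟩
  have hk : k ∉ R := fun hin => hpn.2 ⟨hpB, hin⟩
  have hki : k ≠ i0 := fun e => hk (e ▸ hi0R)
  have hlj : l ≠ j0 := fun e => hl (e ▸ hj0C)
  obtain ⟨r1, r2, r3⟩ := hRmem k hk
  have hl' : (i0, l) ∉ B ∧ (∀ j', (i0, j') ∈ B → ¬ H.Adj j' l) ∧
      (∀ i', H.Adj i0 i' → (i', l) ∉ B) := by
    rw [hC] at hl
    unfold FC at hl
    simp only [mem_filter, mem_univ, true_and, not_or, not_exists, not_and] at hl
    exact hl
  obtain ⟨l1, l2, l3⟩ := hl'
  set B1 := B.erase (k, l) with hB1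
  have hB1g : Good H f B1 := good_mono ⟨g1, g2, g3, g4⟩ (erase_subset _ _)
  have hB1row : (B1.filter (fun p => p.1 = k)).card < f k := by
    have : (B1.filter (fun p => p.1 = k)).card < (B.filter (fun p => p.1 = k)).card := by
      apply card_lt_card
      rw [ssubset_iff_of_subset (filter_subset_filter _ (erase_subset _ _))]
      refine ⟨(k, l), mem_filter.2 ⟨hpB, rfl⟩, ?_⟩
      rw [mem_filter]
      exact fun hc => notMem_erase _ _ hc.1
    exact lt_of_lt_of_le this (g1 k)
  have hB1coll : (B1.filter (fun p => p.2 = l)).card < f l := by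
    have : (B1.filter (fun p => p.2 = l)).card < (B.filter (fun p => p.2 = l)).card := by
      apply card_lt_card
      rw [ssubset_iff_of_subset (filter_subset_filter _ (erase_subset _ _))]
      refine ⟨(k, l), mem_filter.2 ⟨hpB, rfl⟩, ?_⟩
      rw [mem_filter]
      exact fun hc => notMem_erase _ _ hc.1
    exact lt_of_lt_of_le this (g2 l)
  have hB1colj : (B1.filter (fun p => p.2 = j0)).card < f j0 :=
    lt_of_le_of_lt (card_le_card (filter_subset_filter _ (erase_subset _ _))) hj0
  have hB1rowi : (B1.filter (fun p => p.1 = i0)).card < f i0 :=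
    lt_of_le_of_lt (card_le_card (filter_subset_filter _ (erase_subset _ _))) hi0
  have hn1 : j0 ∉ FC H B1 k := by
    unfold FC
    simp only [mem_filter, mem_univ, true_and, not_or, not_exists, not_and]
    refine ⟨fun hin => r1 (mem_of_mem_erase hin), ?_, ?_⟩
    · intro j' hj' hadj
      exact r3 j' hadj.symm (mem_of_mem_erase hj')
    · intro i' hi' hin
      exact r2 i' (mem_of_mem_erase hin) hi'.symm
  have hB2g := good_insert hB1g hB1row hB1colj hn1
  set B2 := insert (k, j0) B1 with hB2
  have hB2row : (B2.filter (fun p => p.1 = i0)).card < f i0 := by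
    rw [hB2, filter_insert, if_neg hki]
    exact hB1rowi
  have hB2col : (B2.filter (fun p => p.2 = l)).card < f l := by
    rw [hB2, filter_insert, if_neg (fun e => hlj e.symm)]
    exact hB1coll
  have hn2 : l ∉ FC H B2 i0 := by
    unfold FC
    simp only [mem_filter, mem_univ, true_and, not_or, not_exists, not_and]
    refine ⟨?_, ?_, ?_⟩
    · intro hin
      rw [hB2, mem_insert] at hin
      rcases hin with e | hin
      · exact hki (Prod.mk.inj e).1.symm
      · exact l1 (mem_of_mem_erase hin)
    · intro j' hj'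
      rw [hB2, mem_insert] at hj'
      rcases hj' with e | hj'
      · exact absurd (Prod.mk.inj e).1.symm hki
      · exact l2 j' (mem_of_mem_erase hj')
    · intro i' hi' hin
      rw [hB2, mem_insert] at hin
      rcases hin with e | hin
      · exact hlj (Prod.mk.inj e).2
      · exact l3 i' hi' (mem_of_mem_erase hin)
  have hB3g := good_insert hB2g hB2row hB2col hn2
  have hm := hmax _ hB3g
  have c1 : (i0, l) ∉ B2 := by
    intro hin
    rw [hB2, mem_insert] at hin
    rcases hin with e | hin
    · exact hki (Prod.mk.inj e).1.symm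
    · exact l1 (mem_of_mem_erase hin)
  have c2 : (k, j0) ∉ B1 := fun hin => r1 (mem_of_mem_erase hin)
  rw [card_insert_of_notMem c1, hB2, card_insert_of_notMem c2, hB1, card_erase_of_mem hpB] at hm
  have : 0 < B.card := card_pos.2 ⟨_, hpB⟩
  omega

end Pool.Agent.Helper95.RP.TAm
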