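import Pool.Agent.Helper95.RP.St

/-! # Module TB of project RP (MP_e0fa86_co): doubling -/

namespace Pool.Agent.Helper95.RP.TBm

open Pool.Agent.Helper95.RP Finset
open scoped Classical

variable {h : ℕ}

def Db (H : SimpleGraph (Fin h)) (B : Finset (Fin h × Fin h)) : SimpleGraph (Fin h × Bool) where
  Adj x y := (x.2 = y.2 ∧ H.Adj x.1 y.1) ∨ (x.2 = false ∧ y.2 = true ∧ (x.1, y.1) ∈ B) ∨
    (x.2 = true ∧ y.2 = false ∧ (y.1, x.1) ∈ B)
  symm := ⟨by
    rintro x y (⟨h1, h2⟩ | ⟨h1, h2, h3⟩ | ⟨h1, h2, h3⟩)
    · exact Or.inl ⟨h1.symm, h2.symm⟩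
    · exact Or.inr (Or.inr ⟨h2, h1, h3⟩)
    · exact Or.inr (Or.inl ⟨h2, h1, h3⟩)⟩
  loopless := ⟨by
    rintro x (⟨_, h2⟩ | ⟨h1, h2, _⟩ | ⟨h1, h2, _⟩)
    · exact H.loopless.irrefl _ h2
    · rw [h1] at h2
      exact absurd h2 (by decide)
    · rw [h1] at h2
      exact absurd h2 (by decide)⟩

theorem card_split (P : Fin h × Bool → Prop) :
    (univ.filter P).card = (univ.filter (fun j => P (j, false))).card +
      (univ.filter (fun j => P (j, true))).card := by
  simp only [card_filter, Fintype.sum_prod_type, Fintype.sum_bool, sum_add_distrib]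
  omega

theorem card_fst (B : Finset (Fin h × Fin h)) (i : Fin h) :
    (univ.filter (fun j => (i, j) ∈ B)).card = (B.filter (fun p => p.1 = i)).card := by
  rw [← card_image_of_injective (univ.filter (fun j => (i, j) ∈ B))
    (f := fun j => (i, j)) (fun a b hab => (Prod.mk.inj hab).2)]
  congr 1
  ext ⟨a, b⟩
  simp only [mem_image, mem_filter, mem_univ, true_and, Prod.mk.injEq]
  constructor
  · rintro ⟨j, hj, rfl, rfl⟩
    exact ⟨hj, rfl⟩
  · rintro ⟨hj, rfl⟩
    exact ⟨b, hj, rfl, rfl⟩

theorem card_snd (B : Finset (Fin h × Fin h)) (i : Fin h) :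
    (univ.filter (fun j => (j, i) ∈ B)).card = (B.filter (fun p => p.2 = i)).card := by
  rw [← card_image_of_injective (univ.filter (fun j => (j, i) ∈ B))
    (f := fun j => (j, i)) (fun a b hab => (Prod.mk.inj hab).1)]
  congr 1
  ext ⟨a, b⟩
  simp only [mem_image, mem_filter, mem_univ, true_and, Prod.mk.injEq]
  constructor
  · rintro ⟨j, hj, rfl, rfl⟩
    exact ⟨hj, rfl⟩
  · rintro ⟨hj, rfl⟩
    exact ⟨a, hj, rfl, rfl⟩

theorem deg (H : SimpleGraph (Fin h)) (B : Finset (Fin h × Fin h)) (f : Fin h → ℕ)
    (h1 : ∀ i, (B.filter (fun p => p.1 = i)).card = f i)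
    (h2 : ∀ i, (B.filter (fun p => p.2 = i)).card = f i) (x : Fin h × Bool) :
    (univ.filter (fun y => (Db H B).Adj x y)).card = dgr H x.1 + f x.1 := by
  obtain ⟨i, b⟩ := x
  rw [card_split]
  cases b
  · have e1 : (univ.filter (fun j => (Db H B).Adj (i, false) (j, false))) =
        univ.filter (fun j => H.Adj i j) := by
      ext j
      simp [Db]
    have e2 : (univ.filter (fun j => (Db H B).Adj (i, false) (j, true))) =
        univ.filter (fun j => (i, j) ∈ B) := by
      ext j
      simp [Db]
    rw [e1, e2, card_fst, h1]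
    rfl
  · have e1 : (univ.filter (fun j => (Db H B).Adj (i, true) (j, true))) =
        univ.filter (fun j => H.Adj i j) := by
      ext j
      simp [Db]
    have e2 : (univ.filter (fun j => (Db H B).Adj (i, true) (j, false))) =
        univ.filter (fun j => (j, i) ∈ B) := by
      ext j
      simp [Db]
    rw [e1, e2, card_snd, h2, add_comm]
    rfl

theorem clique (H : SimpleGraph (Fin h)) (B : Finset (Fin h × Fin h)) (s : ℕ) (hs : 3 ≤ s)
    (hH : H.CliqueFree s)
    (h3 : ∀ p ∈ B, ∀ p' ∈ B, p.1 = p'.1 → ¬ H.Adj p.2 p'.2)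
    (h4 : ∀ p ∈ B, ∀ p' ∈ B, p.2 = p'.2 → ¬ H.Adj p.1 p'.1) :
    (Db H B).CliqueFree s := by
  intro C hC
  have hcl := hC.isClique
  have hcard := hC.card_eq
  have same : ∀ b : Bool, ¬ ∀ x ∈ C, x.2 = b := by
    intro b hb
    refine hH (C.image Prod.fst) ?_
    rw [SimpleGraph.isNClique_iff]
    constructor
    · intro u hu v hv huv
      rw [mem_coe, mem_image] at hu hv
      obtain ⟨x, hx, rfl⟩ := hu
      obtain ⟨y, hy, rfl⟩ := hv
      have hxy : x ≠ y := fun e => huv (by rw [e])
      have hadj := hcl hx hy hxy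
      have e : x.2 = y.2 := by rw [hb x hx, hb y hy]
      rcases hadj with ⟨_, g⟩ | ⟨g1, g2, _⟩ | ⟨g1, g2, _⟩
      · exact g
      · rw [g1, g2] at e
        exact absurd e (by decide)
      · rw [g1, g2] at e
        exact absurd e (by decide)
    · rw [card_image_of_injOn, hcard]
      intro x hx y hy hxy
      exact Prod.ext hxy (by rw [hb x hx, hb y hy])
  have hf : ∃ x ∈ C, x.2 = false := by
    by_contra hc
    push Not at hc
    exact same true (fun x hx => by
      have := hc x hx
      revert this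
      cases x.2 <;> simp)
  have ht : ∃ x ∈ C, x.2 = true := by
    by_contra hc
    push Not at hc
    exact same false (fun x hx => by
      have := hc x hx
      revert this
      cases x.2 <;> simp)
  obtain ⟨x, hx, hx2⟩ := hf
  obtain ⟨y, hy, hy2⟩ := ht
  have hxy : x ≠ y := fun e => by
    rw [e, hy2] at hx2
    exact absurd hx2 (by decide)
  obtain ⟨z, hz⟩ : ((C.erase x).erase y).Nonempty := by
    rw [← card_pos, card_erase_of_mem (mem_erase.2 ⟨hxy.symm, hy⟩), card_erase_of_mem hx]
    omega
  rw [mem_erase, mem_erase] at hz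
  obtain ⟨hzy, hzx, hz⟩ := hz
  have axy := hcl hx hy hxy
  have axz := hcl hx hz (Ne.symm hzx)
  have ayz := hcl hy hz (Ne.symm hzy)
  have bxy : (x.1, y.1) ∈ B := by
    rcases axy with ⟨g, _⟩ | ⟨_, _, g⟩ | ⟨g, _, _⟩
    · rw [hx2, hy2] at g
      exact absurd g (by decide)
    · exact g
    · rw [hx2] at g
      exact absurd g (by decide)
  rcases hzb : z.2 with _ | _
  · -- z is on the side false
    have g1 : H.Adj x.1 z.1 := by
      rcases axz with ⟨_, g⟩ | ⟨_, g, _⟩ | ⟨g, _, _⟩
      · exact g
      · rw [hzb] at g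
        exact absurd g (by decide)
      · rw [hx2] at g
        exact absurd g (by decide)
    have g2 : (z.1, y.1) ∈ B := by
      rcases ayz with ⟨g, _⟩ | ⟨g, _, _⟩ | ⟨_, _, g⟩
      · rw [hy2, hzb] at g
        exact absurd g (by decide)
      · rw [hy2] at g
        exact absurd g (by decide)
      · exact g
    exact h4 _ bxy _ g2 rfl g1
  · have g1 : H.Adj y.1 z.1 := by
      rcases ayz with ⟨_, g⟩ | ⟨g, _, _⟩ | ⟨_, g, _⟩
      · exact g
      · rw [hy2] at g
        exact absurd g (by decide)
      · rw [hzb] at g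
        exact absurd g (by decide)
    have g2 : (x.1, z.1) ∈ B := by
      rcases axz with ⟨g, _⟩ | ⟨_, _, g⟩ | ⟨g, _, _⟩
      · rw [hx2, hzb] at g
        exact absurd g (by decide)
      · exact g
      · rw [hx2] at g
        exact absurd g (by decide)
    exact h3 _ bxy _ g2 rfl g1

theorem hTB : TB := by
  intro hTA h D s R H hs hH hdeg hh hR
  obtain ⟨B, b1, b2, b3, b4⟩ := hTA h (D + 4) H (fun i => D + 4 - dgr H i)
    (fun i => by
      have := hdeg i
      constructor <;> omega)
    (fun i => by
      have := hdeg i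
      show dgr H i + (D + 4 - dgr H i) = D + 4
      omega) (by omega)
  have hcard : Fintype.card (Fin (2 * h)) = Fintype.card (Fin h × Bool) := by
    simp
    omega
  let e : Fin (2 * h) ≃ Fin h × Bool := Fintype.equivOfCardEq hcard
  refine ⟨(Db H B).comap e, ?_, ?_, ?_⟩
  · exact (clique H B s hs hH b3 b4).comap
      ⟨(SimpleGraph.Embedding.comap e.toEmbedding (Db H B)).toCopy⟩
  · intro x
    have h1 := deg H B _ b1 b2 (e x)
    have h2 : dgr ((Db H B).comap e) x = (univ.filter (fun y => (Db H B).Adj (e x) y)).card := by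
      have h3 : dgr ((Db H B).comap e) x =
          ((univ.filter (fun y => ((Db H B).comap e).Adj x y)).image e).card := by
        rw [card_image_of_injective _ e.injective]
        unfold dgr
        congr
      rw [h3]
      congr 1
      ext y
      simp only [mem_image, mem_filter, mem_univ, true_and, SimpleGraph.comap_adj]
      constructor
      · rintro ⟨a, ha, rfl⟩
        exact ha
      · intro hy
        exact ⟨e.symm y, by simpa using hy, by simp⟩
    rw [h2, h1]
    have := hdeg (e x).1
    show dgr H (e x).1 + (D + 4 - dgr H (e x).1) = D + 4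
    omega
  · intro S hS
    have hsplit : S.card = (univ.filter (fun j => (e.symm (j, false)) ∈ S)).card +
        (univ.filter (fun j => (e.symm (j, true)) ∈ S)).card := by
      have h1 := card_split (h := h) (fun y => e.symm y ∈ S)
      refine Eq.trans ?_ (h1.trans (by congr))
      rw [← card_image_of_injective S e.injective]
      congr 1
      ext y
      simp only [mem_filter, mem_univ, true_and, mem_image]
      constructor
      · rintro ⟨a, ha, rfl⟩
        simpa using ha
      · intro hy
        exact ⟨e.symm y, hy, by simp⟩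
    have main : ∀ b : Bool, R ≤ (univ.filter (fun j => (e.symm (j, b)) ∈ S)).card →
        ∃ x ∈ S, ∃ y ∈ S, ((Db H B).comap e).Adj x y := by
      intro b hb
      obtain ⟨T, hT1, hT2⟩ := exists_subset_card_eq hb
      obtain ⟨x, hx, y, hy, hxy⟩ := hR T hT2
      have hx' := (mem_filter.1 (hT1 hx)).2
      have hy' := (mem_filter.1 (hT1 hy)).2
      refine ⟨_, hx', _, hy', ?_⟩
      rw [SimpleGraph.comap_adj, Equiv.apply_symm_apply, Equiv.apply_symm_apply]
      exact Or.inl ⟨rfl, hxy⟩
    rcases le_or_gt R (univ.filter (fun j => (e.symm (j, false)) ∈ S)).card with hc | hc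
    · exact main false hc
    · exact main true (by omega)

end Pool.Agent.Helper95.RP.TBm
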