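import Pool.Agent.Helper95.RP.Core
import Pool.Agent.Helper48.RP.M_TU
import Pool.Agent.Helper78.RP.M_KR
import Pool.Agent.Helper4.RP.M_XL
import Pool.Agent.Helper2.RP.M_DB
import Pool.Agent.Helper2.RP.M_DC
import Pool.Agent.Helper78.RP.M_DE
import Pool.Agent.Helper78.RP.M_FA
import Pool.Agent.Helper62.RP.M_FL
import Pool.Agent.Helper79.RP.M_RO
import Pool.Agent.Helper72.RP.M_RC
import Pool.Agent.Helper78.RP.M_CA
import Pool.Agent.Helper78.RP.M_CB
import Pool.Agent.Helper8.RP.M_SY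
import Pool.Agent.Helper30.RP.M_WA
import Pool.Agent.Helper8.RP.M_WT
import Pool.Agent.Helper94.RP.M_BA
import Pool.Agent.Helper15.RP.M_BG
import Pool.Agent.Helper95.RP.M_ST
import Pool.Agent.Helper95.RP.M_SW
import Pool.Agent.Helper13.RP.M_UB
import Pool.Agent.Helper95.RP.M_GB
import Pool.Agent.Helper95.RP.M_GA
import Pool.Agent.Helper95.RP.M_GC
import Pool.Agent.Helper95.RP.M_TA
import Pool.Agent.Helper95.RP.M_TB
import Pool.Agent.Helper95.RP.M_OV
import Pool.Agent.Helper95.RP.M_FN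

/-! # Project RP (MP_e0fa86_co): the theorem -/

set_option autoImplicit false

namespace Pool.Agent.Helper95.RP

theorem fnc : FNc :=
  FNm.hFN Pool.Agent.Helper48.RP.hTU Pool.Agent.Helper78.RP.hKR Pool.Agent.Helper4.RP.hXL
    Pool.Agent.Helper2.RP.hDB Pool.Agent.Helper2.RP.hDC Pool.Agent.Helper78.RP.hDE
    Pool.Agent.Helper30.RP.hWA Pool.Agent.Helper79.RP.hRO Pool.Agent.Helper72.RP.hRC
    Pool.Agent.Helper78.RP.hCA Pool.Agent.Helper78.RP.hCB Pool.Agent.Helper78.RP.hFA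
    Pool.Agent.Helper62.RP.hFL Pool.Agent.Helper8.RP.hSY Pool.Agent.Helper8.RP.hWT
    Pool.Agent.Helper94.RP.hBA Pool.Agent.Helper15.RP.hBG STm.hST SWm.hSW
    Pool.Agent.Helper13.RP.hUB GBm.hGB GAm.hGA GCm.hGC TAm.hTA TBm.hTB OVm.hOV

/-- for every `(s,t;n)`-graph there is an almost regular graph on `n` vertices without `K_s` and
without an independent set of size `10^18 t (clog n)^7`. -/
theorem fin1 :
    ∀ s t n : ℕ, 3 ≤ s → 2 ≤ n →
      (∃ G : SimpleGraph (Fin n), G.CliqueFree s ∧ Gᶜ.CliqueFree t) →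
      ∃ G : SimpleGraph (Fin n), G.CliqueFree s ∧
        Gᶜ.CliqueFree (10 ^ 18 * t * (Nat.clog 2 n) ^ 7) ∧
        ∀ v w : Fin n, Nat.card (G.neighborSet v) ≤ Nat.card (G.neighborSet w) + 1 :=
  core fnc

theorem fin2 :
    ∀ s t n : ℕ, 3 ≤ t → 2 ≤ n →
      (∃ G : SimpleGraph (Fin n), G.CliqueFree s ∧ Gᶜ.CliqueFree t) →
      ∃ G : SimpleGraph (Fin n), G.CliqueFree (10 ^ 18 * s * (Nat.clog 2 n) ^ 7) ∧
        Gᶜ.CliqueFree t ∧
        ∀ v w : Fin n, Nat.card (G.neighborSet v) ≤ Nat.card (G.neighborSet w) + 1 :=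
  core2 fnc

end Pool.Agent.Helper95.RP
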