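import Pool.Agent.Helper95.RP.St

/-! # Module FN of project RP (MP_e0fa86_co): the final numbers -/

namespace Pool.Agent.Helper95.RP.FNm

open Pool.Agent.Helper95.RP Finset
open scoped Classical

theorem hFN : FN := by
  intro hTU hKR hXL hDB hDC hDE hWA hRO hRC hCA hCB hFA hFL hSY hWT hBA hBG hST hSW hUB hGB hGA
    hGC hTA hTB hOV s t n hs ht hn G hG hI
  set c := Nat.clog 2 n with hc
  have hc1 : 1 ≤ c := Nat.clog_pos (by norm_num) hn
  have hnc : n ≤ 2 ^ c := Nat.le_pow_clog (by norm_num) n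
  obtain ⟨h, hh⟩ : ∃ h, h = (n + 1) / 2 := ⟨_, rfl⟩
  obtain ⟨N0, hN0⟩ : ∃ N0, N0 = h / (18432 * (2 * c)) := ⟨_, rfl⟩
  have hpos : 0 < 18432 * (2 * c) := by omega
  have hdiv := Nat.div_add_mod h (18432 * (2 * c))
  have hmod := Nat.mod_lt h hpos
  rw [← hN0] at hdiv
  have hlow : 18432 * (2 * c) * N0 ≤ h := by omega
  have hupp : h < 18432 * (2 * c) * (N0 + 1) := by
    rw [mul_add, mul_one]
    omega
  have hc7 : c ≤ c ^ 7 := by
    calc c = c ^ 1 := (pow_one c).symm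
      _ ≤ c ^ 7 := Nat.pow_le_pow_right hc1 (by norm_num)
  have hct : t * c ≤ t * c ^ 7 := Nat.mul_le_mul_left _ hc7
  rcases Nat.lt_or_ge N0 (200 * t) with hcase | hcase
  · have h1 : 18432 * (2 * c) * (N0 + 1) ≤ 18432 * (2 * c) * (200 * t) :=
      Nat.mul_le_mul_left _ hcase
    have h2 : 18432 * (2 * c) * (200 * t) = 7372800 * (t * c) := by ring
    have h3 : 10 ^ 18 * t * c ^ 7 = 10 ^ 18 * (t * c ^ 7) := by ring
    have h4 : 1 ≤ t * c := Nat.mul_pos ht hc1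
    refine ⟨⊥, ?_, ?_, ?_⟩
    · intro C hC
      have h5 := hC.isClique
      have h6 : 1 < C.card := by
        rw [hC.card_eq]
        omega
      obtain ⟨x, hx, y, hy, hxy⟩ := one_lt_card.1 h6
      exact h5 hx hy hxy
    · intro x y
      unfold dgr
      simp
    · intro S hS
      exfalso
      have h5 := card_le_univ S
      rw [Fintype.card_fin, hS, h3] at h5
      omega
  · have hN0h : N0 ≤ h := by
      rw [hN0]
      exact Nat.div_le_self _ _
    have hhn : h ≤ n := by omega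
    have hle : N0 ≤ n := hN0h.trans hhn
    have hinj : Function.Injective (Fin.castLE hle) := Fin.castLE_injective hle
    have hG0 : (G.comap (Fin.castLE hle)).CliqueFree s :=
      hG.comap ⟨(SimpleGraph.Embedding.comap ⟨Fin.castLE hle, hinj⟩ G).toCopy⟩
    have hI0 : NoInd (G.comap (Fin.castLE hle)) t := by
      intro S hS
      obtain ⟨x, hx, y, hy, hxy⟩ := hI (S.image (Fin.castLE hle)) (by
        rw [card_image_of_injective _ hinj, hS])
      rw [mem_image] at hx hy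
      obtain ⟨x', hx', rfl⟩ := hx
      obtain ⟨y', hy', rfl⟩ := hy
      exact ⟨x', hx', y', hy', hxy⟩
    have hp1 : N0 ^ 2 ≤ 2 ^ (2 * c) := by
      calc N0 ^ 2 ≤ n ^ 2 := Nat.pow_le_pow_left hle 2
        _ ≤ (2 ^ c) ^ 2 := Nat.pow_le_pow_left hnc 2
        _ = 2 ^ (2 * c) := by rw [← pow_mul, mul_comm]
    have hp2 : h ≤ 2 ^ (2 * c) := by
      calc h ≤ n := hhn
        _ ≤ 2 ^ c := hnc
        _ ≤ 2 ^ (2 * c) := Nat.pow_le_pow_right (by norm_num) (by omega)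
    have hN1 : 1 ≤ N0 := by omega
    have hup2 : h ≤ 36864 * (2 * c) * N0 := by
      have e1 : 18432 * (2 * c) * (N0 + 1) ≤ 18432 * (2 * c) * (N0 + N0) :=
        Nat.mul_le_mul_left _ (by omega)
      have e2 : 18432 * (2 * c) * (N0 + N0) = 36864 * (2 * c) * N0 := by ring
      omega
    obtain ⟨V, m, z, D, w1, w2, w3, w4, w5, w6, w7⟩ :=
      hWT hTU hKR hXL hDB hDC hDE hWA hRO hRC hCA hCB hFA hFL hSY N0
        (G.comap (Fin.castLE hle)) t (2 * c) h (by omega) ht hI0 hcase hp1 hlow hup2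
    have hM : 1 ≤ 60000 * (2 * c) ^ 2 := by
      have : 0 < (2 * c) ^ 2 := Nat.pow_pos (by omega)
      omega
    obtain ⟨H, g1, g2, g3⟩ := hGC hTU hBA hBG hST hSW hUB hGB hGA N0
      (G.comap (Fin.castLE hle)) V m z t (2 * c) (60000 * (2 * c) ^ 2) h D ht (by omega) hM hI0
      hp2 w1 w2 w3 w4 w5 w6
    obtain ⟨K, k1, k2, k3⟩ := hTB hTA h D s
      (60000 * (2 * c) ^ 2 * (4 * t * (60000 * (2 * c) ^ 2) ^ 2 * (2 * c))) H hs (g1 s hG0) g2 w7 g3
    obtain ⟨K', l1, l2, l3⟩ := hOV h (D + 4) s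
      (2 * (60000 * (2 * c) ^ 2 * (4 * t * (60000 * (2 * c) ^ 2) ^ 2 * (2 * c)))) n K (by omega)
      hh k1 k2 k3
    refine ⟨K', l1, l2, ?_⟩
    intro S hS
    have hnum : 2 * (60000 * (2 * c) ^ 2 * (4 * t * (60000 * (2 * c) ^ 2) ^ 2 * (2 * c))) ≤
        S.card := by
      have e1 : 2 * (60000 * (2 * c) ^ 2 * (4 * t * (60000 * (2 * c) ^ 2) ^ 2 * (2 * c))) =
          221184000000000000 * (t * c ^ 7) := by ring
      have e2 : 10 ^ 18 * t * c ^ 7 = 10 ^ 18 * (t * c ^ 7) := by ring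
      rw [hS, e1, e2]
      exact Nat.mul_le_mul_right _ (by norm_num)
    obtain ⟨S', hS1, hS2⟩ := exists_subset_card_eq hnum
    obtain ⟨x, hx, y, hy, hxy⟩ := l3 S' hS2
    exact ⟨x, hS1 hx, y, hS1 hy, hxy⟩

end Pool.Agent.Helper95.RP.FNm
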