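import Mathlib

/-!
# Project RP (MP_e0fa86, fourth hand-in): almost regular Ramsey graphs up to a polylogarithmic factor

THEOREM.  Let `s` be at least `3` and let there be a graph on `n` vertices (`n` at least `2`)
without `K_s` and without an independent set of size `t`.  Then there is an ALMOST REGULAR graph
on `n` vertices without `K_s` and without an independent set of size
`10^18 * t * (clog_2 n)^7`.

Outline.  Let `G` be the given graph, restricted to a smaller set of vertices.
1. (`TU`, `KR`) A subset `W` of at least half of the vertices on which the degrees are at most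
   `q/2` times the average degree.
2. (`XL`, `DB`, `DC`, `DE`) A subset `V` of `W` and a partition of the vertices of the bipartite
   double cover of `G[V]` into classes which are expanding.
3. (`FA`, `FL`, `RO`, `RC`, `CA`, `CB`, `SY`, `WA`, `WT`) Weights `m_u` (the number of copies of
   `u`) and `z_uv` (the number of edges between the copies of `u` and those of `v`) such that the
   sum of `z_uv` over `v` is between `D m_u` and `(D+3) m_u`: integral flows in the double cover.
4. (`BA`, `BG`, `ST`, `SW`, `UB`, `GB`, `GA`, `GC`) A random blow-up of `G` with these numbers.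
5. (`TA`, `TB`, `OV`, `FN`) Two copies of the blow-up are joined by a few edges which are in no
   triangle, so that the graph becomes regular.

Every statement below is a `def X : Prop`; its docstring has the complete proof.  The earlier
statements which are used are hypotheses of the statement.
-/

namespace Pool.Agent.Helper95.RP

open Finset
open scoped Classical

noncomputable section

/-- the vertices of the bipartite double cover. -/
abbrev Cp (N : ℕ) := Fin N × Bool

/-- labels of the classes: there are `2 N + 1` labels and `2 N` vertices of the double cover. -/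
abbrev Lb (N : ℕ) := Option (Fin N × Bool)

/-- number of neighbours of `v` in `W`. -/
def dg {N : ℕ} (G : SimpleGraph (Fin N)) (W : Finset (Fin N)) (v : Fin N) : ℕ :=
  (W.filter (fun u => G.Adj v u)).card

/-- twice the number of edges in `W`. -/
def e2 {N : ℕ} (G : SimpleGraph (Fin N)) (W : Finset (Fin N)) : ℕ := ∑ v ∈ W, dg G W v

/-- no independent set of size `t`. -/
def NoInd {N : ℕ} (G : SimpleGraph (Fin N)) (t : ℕ) : Prop :=
  ∀ S : Finset (Fin N), S.card = t → ∃ u ∈ S, ∃ v ∈ S, G.Adj u v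

/-- the degree. -/
def dgr {h : ℕ} (H : SimpleGraph (Fin h)) (x : Fin h) : ℕ :=
  (univ.filter (fun y => H.Adj x y)).card

/-- the edges of the double cover of `G[V]` inside the classes of `cl`: the pair `(u, v)` stands
for the edge between `(u, false)` and `(v, true)`. -/
def Ed {N : ℕ} (G : SimpleGraph (Fin N)) (V : Finset (Fin N)) (cl : Cp N → Lb N) :
    Finset (Fin N × Fin N) :=
  (V ×ˢ V).filter (fun p => G.Adj p.1 p.2 ∧ cl (p.1, false) = cl (p.2, true))

/-- number of edges at the vertex `x` of the double cover. -/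
def inc {N : ℕ} (E : Finset (Fin N × Fin N)) (x : Cp N) : ℕ :=
  (E.filter (fun p => (p.1, false) = x ∨ (p.2, true) = x)).card

/-- number of edges with both ends in `S`. -/
def inn {N : ℕ} (E : Finset (Fin N × Fin N)) (S : Finset (Cp N)) : ℕ :=
  (E.filter (fun p => (p.1, false) ∈ S ∧ (p.2, true) ∈ S)).card

/-- number of edges with exactly one end in `S`. -/
def cut {N : ℕ} (E : Finset (Fin N × Fin N)) (S : Finset (Cp N)) : ℕ :=
  (E.filter (fun p => ¬ ((p.1, false) ∈ S ↔ (p.2, true) ∈ S))).card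

/-- the class with label `j`. -/
def Qc {N : ℕ} (V : Finset (Fin N)) (cl : Cp N → Lb N) (j : Lb N) : Finset (Cp N) :=
  univ.filter (fun x => x.1 ∈ V ∧ cl x = j)

/-- the classes are expanding. -/
def Xp {N : ℕ} (A : ℕ) (E : Finset (Fin N × Fin N)) (V : Finset (Fin N)) (cl : Cp N → Lb N) :
    Prop :=
  ∀ (j : Lb N) (S : Finset (Cp N)), S ⊆ Qc V cl j →
    min (inn E S) (inn E (Qc V cl j \ S)) ≤ A * cut E S

/-- the function `n - b n log n`. -/
def hh (b : ℝ) (n : ℕ) : ℝ := (n : ℝ) - b * ((n : ℝ) * Real.log (n : ℝ))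

/-- number of edges in the class with label `j`. -/
def ej {N : ℕ} (G : SimpleGraph (Fin N)) (V : Finset (Fin N)) (cl : Cp N → Lb N) (j : Lb N) : ℕ :=
  inn (Ed G V cl) (Qc V cl j)

/-- the function which is maximised. -/
def Psi {N : ℕ} (b lam : ℝ) (G : SimpleGraph (Fin N)) (V : Finset (Fin N)) (cl : Cp N → Lb N) :
    ℝ :=
  (∑ j : Lb N, hh b (ej G V cl j)) - lam * (V.card : ℝ)

/-- `c x` with the sign of the side of `x`. -/
def sg {N : ℕ} (c : Cp N → ℤ) (x : Cp N) : ℤ := if x.2 = true then - c x else c x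

/-- a flow on the edges of `E` with values between `-k` and `k`. -/
def Cap {N : ℕ} (E : Finset (Fin N × Fin N)) (k : ℕ) (g : Fin N × Fin N → ℤ) : Prop :=
  (∀ p, p ∉ E → g p = 0) ∧ ∀ p, |g p| ≤ (k : ℤ)

/-- what is still to be sent out of `x`. -/
def need {N : ℕ} (c : Cp N → ℤ) (g : Fin N × Fin N → ℤ) (x : Cp N) : ℤ :=
  if x.2 = true then - c x + ∑ u : Fin N, g (u, x.1) else c x - ∑ v : Fin N, g (x.1, v)

/-- one unit can be pushed from `x` to `y`. -/
def Stp {N : ℕ} (E : Finset (Fin N × Fin N)) (k : ℕ) (g : Fin N × Fin N → ℤ) (x y : Cp N) :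
    Prop :=
  (x.2 = false ∧ y.2 = true ∧ (x.1, y.1) ∈ E ∧ g (x.1, y.1) < (k : ℤ)) ∨
  (x.2 = true ∧ y.2 = false ∧ (y.1, x.1) ∈ E ∧ -(k : ℤ) < g (y.1, x.1))

/-- `R` is a bipartite graph between `range m` and `range m'` with row sums `a` and column sums
`b`. -/
def Bip (m m' : ℕ) (a b : ℕ → ℕ) (R : Finset (ℕ × ℕ)) : Prop :=
  R ⊆ range m ×ˢ range m' ∧
  (∀ x ∈ range m, (R.filter (fun p => p.1 = x)).card = a x) ∧
  (∀ y ∈ range m', (R.filter (fun p => p.2 = y)).card = b y)

/-- the blow-up of `G[V]` given by the bipartite graphs `R u v` for `u < v`. -/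
def Fg {N : ℕ} (G : SimpleGraph (Fin N)) (V : Finset (Fin N))
    (R : Fin N → Fin N → Finset (ℕ × ℕ)) : SimpleGraph (Fin N × ℕ) where
  Adj x y := x.1 ∈ V ∧ y.1 ∈ V ∧ G.Adj x.1 y.1 ∧
    ((x.1 < y.1 ∧ (x.2, y.2) ∈ R x.1 y.1) ∨ (y.1 < x.1 ∧ (y.2, x.2) ∈ R y.1 x.1))
  symm := ⟨by
    rintro x y ⟨h1, h2, h3, h4⟩
    exact ⟨h2, h1, h3.symm, h4.symm⟩⟩
  loopless := ⟨by
    rintro x ⟨_, _, h3, _⟩
    exact G.loopless.irrefl _ h3⟩

/-- the copies: `(u, i)` with `u` in `V` and `i < m u`. -/
def Pt {N : ℕ} (V : Finset (Fin N)) (m : Fin N → ℕ) : Finset (Fin N × ℕ) :=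
  V.biUnion (fun u => (range (m u)).image (fun i => (u, i)))

theorem mem_Pt {N : ℕ} (V : Finset (Fin N)) (m : Fin N → ℕ) (x : Fin N × ℕ) :
    x ∈ Pt V m ↔ x.1 ∈ V ∧ x.2 < m x.1 := by
  unfold Pt
  simp only [mem_biUnion, mem_image, mem_range]
  constructor
  · rintro ⟨u, hu, i, hi, rfl⟩
    exact ⟨hu, hi⟩
  · rintro ⟨h1, h2⟩
    exact ⟨x.1, h1, x.2, h2, rfl⟩

/-- different elements of `S` are copies of different vertices. -/
def Tr {N : ℕ} (S : Finset (Fin N × ℕ)) : Prop := ∀ x ∈ S, ∀ y ∈ S, x.1 = y.1 → x = y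

/-! ## 1. Degrees -/

/-- **TU** (Turan). PROOF by induction on `t` for all `W`.  `t = 0`: `S` empty contradicts the
hypothesis.  `t + 1`: if `W` is empty everything is `0`.  Let `v` in `W` have the smallest
`d = dg G W v`, let `C = {v}` union the neighbours of `v` in `W` (`d + 1` elements) and
`W' = W \ C`, `w' = |W'|`.  Every `S` inside `W'` with `|S| = t` has an edge: `insert v S` has
`t + 1` elements, so it has an edge, and this edge is not at `v` (no element of `W'` is adjacent
to `v`).  By induction `w'^2 <= t (e2 W' + w')`.  Put `X = e2 W + |W|`, `Y = e2 W' + w'`.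
`X = sum over x in W of (dg W x + 1) >= (d+1)(d+1) + sum over x in W' of (dg W' x + 1)
= (d+1)^2 + Y`.  With `a = d + 1`: `|W| = a + w'`, `t Y >= w'^2`, `X >= a^2 + Y`, and
`(t+1) X >= (t+1)(a^2 + Y) >= a^2 + Y + t a^2 + w'^2 >= (a + w')^2`, because
`(Y + t a^2)^2 >= 4 t Y a^2 >= 4 w'^2 a^2`, hence `Y + t a^2 >= 2 a w'`. -/
def TU : Prop :=
  ∀ (N : ℕ) (G : SimpleGraph (Fin N)) (t : ℕ) (W : Finset (Fin N)),
    (∀ S ⊆ W, S.card = t → ∃ u ∈ S, ∃ v ∈ S, G.Adj u v) →
    W.card ^ 2 ≤ t * (e2 G W + W.card)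

/-- **KR**. PROOF.  Let `F` be the family of the `W` with `t < |W|`; it contains `univ`.  For `W`
in `F` we have `1 <= e2 W`: a subset of `W` with `t` elements has an edge.  Let `W` in `F`
minimise the real number `e2 W / |W|^q`.  Comparison with `univ`: `e2 univ <= N^2`, so
`N^q <= e2 W * N^q <= N^2 * |W|^q <= 2^q |W|^q = (2 |W|)^q`; as `q >= 1` (because
`N^2 >= 16 > 2^0`) this gives `N <= 2 |W|`.  Let `v` in `W`, `W' = W.erase v`, `w = |W|`.
`|W'| = w - 1 >= N/2 - 1 >= t + 1`, so `W'` is in `F`.  `e2 W' = e2 W - 2 d` with `d = dg W v`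
(symmetry and irreflexivity).  Minimality: `e2 W * (w-1)^q <= (e2 W - 2 d) * w^q`.  Bernoulli
(`one_add_mul_le_pow` with `-1/w`): `(w-1)^q >= w^q (1 - q/w)`.  So
`e2 W (1 - q/w) <= e2 W - 2 d`, i.e. `2 w d <= q e2 W`. -/
def KR : Prop :=
  ∀ (N : ℕ) (G : SimpleGraph (Fin N)) (t q : ℕ),
    NoInd G t → 2 * t + 4 ≤ N → N ^ 2 ≤ 2 ^ q →
    ∃ W : Finset (Fin N), N ≤ 2 * W.card ∧
      ∀ v ∈ W, 2 * (W.card * dg G W v) ≤ q * e2 G W

/-! ## 2. The expanding classes -/

/-- **XL**. PROOF.  First part: `a = 0`: the right side is `>= 0` (`b = 0` or `log b >= 0`);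
`1 <= a`: `0 <= log a <= log b`.  Second part: by the first part it is enough to treat `c = 0`
(`x + y <= x + y + c`).  If `x = 0` or `y = 0` then `min x y = 0` and it is an equality.  Let
`x, y >= 1`.  `x log (x+y) >= x log x`, `y log (x+y) >= y log y`, and if `x <= y` then
`x + y >= 2 x` gives `x log (x+y) >= x log x + x log 2`; symmetric if `y <= x`. -/
def XL : Prop :=
  (∀ a b : ℕ, a ≤ b → (a : ℝ) * Real.log (a : ℝ) ≤ (b : ℝ) * Real.log (b : ℝ)) ∧
  (∀ x y c : ℕ, (x : ℝ) * Real.log (x : ℝ) + (y : ℝ) * Real.log (y : ℝ) +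
      ((min x y : ℕ) : ℝ) * Real.log 2 ≤
      ((x + y + c : ℕ) : ℝ) * Real.log ((x + y + c : ℕ) : ℝ))

/-- **DB** (removal of a vertex). PROOF.  Let `E = Ed G V cl`, `V' = V.erase u`,
`E' = Ed G V' cl`.  `E'` is the set of the `p` in `E` with `p.1, p.2` both different from `u`.
For a label `j` the set of the `p` in `E` with both ends in `Qc V cl j` is the set of the `p` in
`E` with `cl (p.1, false) = j` (then `cl (p.2, true) = j` as well); the same for `E'`.  So
`ej' j <= ej j` and `ej j - ej' j` is the number of the `p` in `E` with label `j` and `p.1 = u` or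
`p.2 = u`.  The sum of `ej j - ej' j` over all labels is the number of the `p` in `E` with
`p.1 = u` or `p.2 = u`, which is at most `inc (u, false) + inc (u, true)`.  For `n' <= n`:
`hh b n' >= hh b n - (n - n')`, because `b >= 0` and `n' log n' <= n log n` (first part of `XL`).
Sum over `j`, and `|V'| = |V| - 1`. -/
def DB : Prop := XL →
  ∀ (N : ℕ) (G : SimpleGraph (Fin N)) (V : Finset (Fin N)) (cl : Cp N → Lb N) (b lam : ℝ)
    (u : Fin N), 0 ≤ b → u ∈ V →
    Psi b lam G V cl -
        ((inc (Ed G V cl) (u, false) + inc (Ed G V cl) (u, true) : ℕ) : ℝ) + lam ≤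
      Psi b lam G (V.erase u) cl

/-- **DC** (a class is split).  PROOF.  Let `E = Ed G V cl`.  An edge `p` of `E` has both ends in
`Qc V cl j` or no end in it.  So an edge with both ends in `Qc V cl j` has both ends in `S`, or
both ends in `Qc \ S`, or exactly one end in `S`; and an edge with exactly one end in `S` has both
ends in `Qc`.  This is the equation for `ej`.  If `S` is empty take `cl' = cl` (then
`hh b (inn E S) = hh b 0 = 0` and `Qc \ S = Qc`).  Let `S` be nonempty, so that the label `j` is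
used by an element of `S`.  There are `2 N + 1` labels and `cl` takes at most `2 N` values, so
there is a label `j'` which is not a value of `cl`.  Let `cl' x = j'` for `x` in `S` and
`cl' x = cl x` otherwise.  Then `Qc V cl' j' = S`, `Qc V cl' j = Qc V cl j \ S` and
`Qc V cl' i = Qc V cl i` for the other `i`.  Also `ej G V cl' i` is the number of the pairs
`(u, v)` of adjacent elements of `V` with `(u, false), (v, true)` both in `Qc V cl' i`; so it is
`inn E S` for `i = j'`, `inn E (Qc \ S)` for `i = j` and `ej G V cl i` for the others, and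
`ej G V cl j' = 0`.  Hence the two sides are equal (`hh b 0 = 0`). -/
def DC : Prop :=
  ∀ (N : ℕ) (G : SimpleGraph (Fin N)) (V : Finset (Fin N)) (cl : Cp N → Lb N) (b lam : ℝ)
    (j : Lb N) (S : Finset (Cp N)), S ⊆ Qc V cl j →
    ej G V cl j = inn (Ed G V cl) S + inn (Ed G V cl) (Qc V cl j \ S) + cut (Ed G V cl) S ∧
    ∃ cl' : Cp N → Lb N,
      Psi b lam G V cl - hh b (ej G V cl j) + hh b (inn (Ed G V cl) S) +
        hh b (inn (Ed G V cl) (Qc V cl j \ S)) ≤ Psi b lam G V cl'

/-- **DE** (the expanding classes). PROOF.  `E := e2 G W >= 1`, so `w := |W| >= 1`.  Put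
`b = 1 / (A log 2)`, `lam = E / (4 w)`.  Among the pairs `(V, cl)` with `V` inside `W` choose one
with `Psi b lam G V cl` as large as possible (finite set, nonempty).
(i) `Xp`: let `S` be inside `Qc V cl j`, `x = inn S`, `y = inn (Qc \ S)`, `c = cut S`.  By `DC` and
maximality `hh x + hh y <= hh (x + y + c)`, i.e.
`b ((x+y+c) log (x+y+c) - x log x - y log y) <= c`.  With `XL`: `b * min x y * log 2 <= c`, so
`min x y <= A c`.
(ii) For `u` in `V`, `DB` and maximality give `lam <= inc (u,false) + inc (u,true)`, which is the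
second conclusion after multiplication by `4 w`.
(iii) For `V = W`, `cl = (fun _ => none)`: `Ed` is the set of all ordered pairs of adjacent
elements of `W`, of size `E`; `ej none = E` and `ej j = 0` for the other labels.  So
`Psi = E - b E log E - E/4`, and `log E <= q log 2` gives `b log E <= q / A <= 1/8`.  So the
maximum is at least `5 E / 8`.  For the maximal pair: `sum ej j <= |Ed|` (an edge with both ends
in `Qc V cl j` has `cl (p.1,false) = j`, so it is counted for one `j` only), `hh b n <= n`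
(as `b >= 0`, `n log n >= 0`) and `lam * |V| >= 0`.  So `|Ed| >= Psi >= 5 E / 8`. -/
def DE : Prop := XL → DB → DC →
  ∀ (N : ℕ) (G : SimpleGraph (Fin N)) (W : Finset (Fin N)) (A q : ℕ),
    1 ≤ A → 8 * q ≤ A → 1 ≤ e2 G W → e2 G W ≤ 2 ^ q →
    ∃ (V : Finset (Fin N)) (cl : Cp N → Lb N), V ⊆ W ∧ Xp A (Ed G V cl) V cl ∧
      (∀ u ∈ V, e2 G W ≤
        4 * (W.card * (inc (Ed G V cl) (u, false) + inc (Ed G V cl) (u, true)))) ∧
      5 * e2 G W ≤ 8 * (Ed G V cl).card

/-! ## 3. Flows and weights -/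

/-- **FA** (no augmenting path). PROOF.  Let `Phi g` be the sum of `|need c g x|` over all `x` (a
natural number, `natAbs`).  Let `Phi0` be the smallest value of `Phi g` over the `g` with
`Cap E k g` (`g = 0` is one).  Suppose the claim fails for every minimal `g`.  So there are a `g`
with `Cap E k g`, `Phi g = Phi0`, a number `n` and `p : ℕ → Cp N` with
`0 < need c g (p 0)`, `need c g (p n) < 0` and `Stp E k g (p i) (p (i+1))` for `i < n`.
Choose such `(g, n, p)` with the smallest `n` (over all minimal `g`).  `n` is not `0`.  For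
`1 <= i <= n` the vertex `p i` differs from `p 0`: otherwise the path `p i, ..., p n` is shorter.
Let `g'` arise from `g` by pushing one unit from `p 0` to `p 1`: if `(p 0).2 = false` then `g'` is
`g + 1` at the pair `((p 0).1, (p 1).1)`, else `g'` is `g - 1` at the pair `((p 1).1, (p 0).1)`.
Then `Cap E k g'` (integers), `need c g' (p 0) = need c g (p 0) - 1`,
`need c g' (p 1) = need c g (p 1) + 1`, and `need` does not change elsewhere (the two ends of the
edge are on different sides, so they are different).  If `need c g (p 1) < 0` then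
`Phi g' = Phi0 - 2`, impossible.  So `need c g (p 1) >= 0` (in particular `n >= 2`),
`Phi g' = Phi0` and `need c g' (p 1) > 0`, `need c g' (p n) = need c g (p n) < 0` (as `p n` is
neither `p 0`, nor `p 1` because `need c g (p 1) >= 0`).  The steps from `p i` to `p (i+1)`,
`1 <= i < n`, are steps for `g'` also: their edge has no end `p 0`, so `g' = g` at it.  So
`(g', n - 1, i ↦ p (i+1))` contradicts the choice of `n`.  (A `ReflTransGen` path is the same as
a function `p` and a number `n`.) -/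
def FA : Prop :=
  ∀ (N : ℕ) (E : Finset (Fin N × Fin N)) (c : Cp N → ℤ) (k : ℕ),
    ∃ g : Fin N × Fin N → ℤ, Cap E k g ∧
      ∀ x y : Cp N, Relation.ReflTransGen (Stp E k g) x y → 0 < need c g x → ¬ need c g y < 0

/-- **FL** (integral flow). PROOF.  Take `g` from `FA` and let `S` be the set of the vertices which
can be reached from some `x` with `0 < need c g x` (`ReflTransGen (Stp E k g) x y`).  All `x` with
positive `need` are in `S` and no `y` in `S` has negative `need`.  For `p` in `E` with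
`(p.1,false)` in `S` and `(p.2,true)` not in `S`: `g p = k` (otherwise `g p < k`, a step).  For `p`
in `E` with `(p.2,true)` in `S` and `(p.1,false)` not in `S`: `g p = -k`.  Now
`sum over x in S of need x = sum over x in S of sg c x - sum over p of g p * ([(p.1,false) in S] -
[(p.2,true) in S])` and the last sum is `k * cut E S` (`g p = 0` outside `E`, the edges with both
ends in `S` cancel, an edge with one end in `S` contributes `k`).  So
`sum over S of need = sum over S of sg c - k cut E S <= 0` by hypothesis, and all terms are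
`>= 0`.  Hence no `x` has positive `need` (such an `x` would be in `S` with a positive term).
For `S = univ`: `cut E univ = 0`, so `sum of sg c = 0`, and the sum of all `need` is `0` (the
contributions of `g` cancel).  All `need` are `<= 0` with sum `0`, so all are `0`.  For
`x = (u,false)` and `x = (v,true)` this is the conclusion. -/
def FL : Prop := FA →
  ∀ (N : ℕ) (E : Finset (Fin N × Fin N)) (c : Cp N → ℤ) (k : ℕ),
    (∀ S : Finset (Cp N), |∑ x ∈ S, sg c x| ≤ (k : ℤ) * (cut E S : ℤ)) →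
    ∃ g : Fin N × Fin N → ℤ, Cap E k g ∧
      (∀ u : Fin N, ∑ v : Fin N, g (u, v) = c (u, false)) ∧
      (∀ v : Fin N, ∑ u : Fin N, g (u, v) = c (v, true))

/-- **RO** (rounding with given sum). PROOF.  Let `F = sum of floor (x u)` over `A`, `U` the set of
the `u` in `A` with `floor (x u) < x u`.  `F <= sum x`, and `sum x < F + |U|` if `U` is nonempty,
`sum x = F` if `U` is empty.  `K > sum x - 1 >= F - 1`, so `K >= F`.  If `U` is empty then
`|K - F| < 1`, so `K = F` and `m = floor x` is right.  Otherwise `K < sum x + 1 < F + |U| + 1`, so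
`K - F <= |U|`: choose `U'` inside `U` with `K - F` elements and let `m u = floor (x u) + 1` on
`U'` and `m u = floor (x u)` elsewhere. -/
def RO : Prop :=
  ∀ (α : Type) (A : Finset α) (x : α → ℝ) (K : ℤ), |(K : ℝ) - ∑ u ∈ A, x u| < 1 →
    ∃ m : α → ℤ, (∀ u ∈ A, |(m u : ℝ) - x u| < 1) ∧ ∑ u ∈ A, m u = K

/-- **RC** (rounding, the errors in the classes are small too). PROOF.  Let `P = A.image p`.  For
`j` in `P` let `X j` be the sum of `x u` over the `u` in `A` with `p u = j`; the sum of `X` over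
`P` is the sum of `x` over `A`.  `RO` for `P`, `X`, `K` gives integers `K j` with
`|K j - X j| < 1` on `P` and sum `K`.  For each `j` in `P`, `RO` for
`A.filter (p u = j)`, `x`, `K j` gives `m_j`.  Let `m u = m_(p u) u`.  For `j` not in `P` the
filter is empty and the last sum is `0`. -/
def RC : Prop := RO →
  ∀ (α β : Type) (A : Finset α) (p : α → β) (x : α → ℝ) (K : ℤ),
    |(K : ℝ) - ∑ u ∈ A, x u| < 1 →
    ∃ m : α → ℤ, (∀ u ∈ A, |(m u : ℝ) - x u| < 1) ∧ (∑ u ∈ A, m u = K) ∧
      ∀ j : β, |∑ u ∈ A.filter (fun u => p u = j), ((m u : ℝ) - x u)| < 1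

/-- **CA** (correction of the class sums). PROOF.  Let `c1 (u, i) = c0 u` if `u` is in `V` and
`s u = i`, and `0` otherwise.  For a label `j` let `beta j` be the sum of `sg c1 x` over
`x` in `Qc V cl j`.  It is the difference of the two class sums of the hypothesis (`i = false` and
`i = true`), so `|beta j| <= 2 B`.  Call `j` busy if there is `u` in `V` with `cl (u, s u) = j`.  If
`j` is not busy then `beta j = 0`; put `A_j = empty`.  If `j` is busy, choose such a `u`, let
`x = (u, s u)` and let `A_j` be the set of the `y` in `Qc V cl j` on the other side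
(`y.2 = !(s u)`) which are joined to `x` by an edge of `E`.  Different edges at `x` have different
other ends and these ends are in `Qc V cl j` (hypothesis on `E`), so `|A_j| = inc E x >= L >= 1`,
and every `y` in `A_j` has `inc E y >= 1`.  `RO` for `A_j`, the constant function
`beta j / |A_j|` and `K = beta j` gives integers `a y` with sum `beta j` over `A_j` and
`|a y| < |beta j| / |A_j| + 1 <= 2 B / L + 1`, so `L |a y| <= 2 B + L`.  Let `a y = 0` if `y` is
not in `A_(cl y)` or `y.1` is not in `V`.  Let `c y` be `c1 y` minus `a y` with the sign of the side: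
`sg c y = sg c1 y - a y`, i.e. `c y = c1 y - a y` if `y.2 = false` and `c y = c1 y + a y` if
`y.2 = true`.  Then: `c = 0` outside `V`; the sum of `sg c` over `Qc V cl j` is
`beta j - beta j = 0`; `c (u,false) + c (u,true) - c0 u` is a sum of two numbers `± a y`, so
`L` times its absolute value is at most `2 (2 B + L)`.  Last: if `x = (u, s u)`, `u` in `V`, then
`inc E x >= L` and `L |c x| <= L B + 2 B + L <= (3 B + L) L <= (3 B + L) inc E x` (`L >= 1`).
If `x` is in `A_(cl x)` and not of this form, then `inc E x >= 1` and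
`L |c x| <= 2 B + L <= (3 B + L) inc E x`.  Otherwise `c x = 0`. -/
def CA : Prop := RO →
  ∀ (N : ℕ) (V : Finset (Fin N)) (cl : Cp N → Lb N) (E : Finset (Fin N × Fin N))
    (s : Fin N → Bool) (c0 : Fin N → ℤ) (B L : ℕ),
    1 ≤ L →
    (∀ p ∈ E, p.1 ∈ V ∧ p.2 ∈ V ∧ cl (p.1, false) = cl (p.2, true)) →
    (∀ u ∈ V, L ≤ inc E (u, s u)) →
    (∀ u ∈ V, |c0 u| ≤ (B : ℤ)) →
    (∀ (j : Lb N) (i : Bool),
      |∑ u ∈ V.filter (fun u => cl (u, i) = j ∧ s u = i), c0 u| ≤ (B : ℤ)) →
    ∃ c : Cp N → ℤ, (∀ x : Cp N, x.1 ∉ V → c x = 0) ∧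
      (∀ u ∈ V, (L : ℤ) * |c (u, false) + c (u, true) - c0 u| ≤ 4 * (B : ℤ) + 2 * (L : ℤ)) ∧
      (∀ j : Lb N, ∑ x ∈ Qc V cl j, sg c x = 0) ∧
      (∀ x : Cp N, (L : ℤ) * |c x| ≤ (3 * (B : ℤ) + (L : ℤ)) * (inc E x : ℤ))

/-- **CB** (the cut condition). PROOF.  Let `S` be any set, `T_j` the intersection of `S` and
`Qc V cl j`, `T'_j = Qc V cl j \ S`.
(1) The sum of `sg c` over `S` is the sum over `j` of the sums over `T_j` (`c = 0` outside `V`).
(2) `cut E S` is the sum over `j` of `cut E T_j`: an edge has both ends in the class with label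
`cl (p.1, false)` and no end in the other classes.
(3) For a finite set `T` the sum of `inc E x` over `x` in `T` is `2 inn E T + cut E T` (double
counting: an edge contributes the number of its ends in `T`).
(4) Let `M_j` be the sum of `sg c` over `T_j`; the sum over `T'_j` is `-M_j`, because the sum over
`Qc V cl j` is `0`.  So for `T = T_j` and for `T = T'_j`:
`L |M_j| <= sum of L |c x| over T <= (3 B + L)(2 inn E T + cut E T)`.
`cut E T'_j = cut E T_j =: u` (an edge inside the class has exactly one end in `T_j` iff it has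
exactly one end in `T'_j`, other edges have no end in either).  By `Xp` one of the two `inn` is at
most `A u`.  So `L |M_j| <= (3 B + L)(2 A + 1) u <= (3 B + L) 3 A u <= k L u`, hence
`|M_j| <= k u` (`L >= 1`).  Sum over `j`. -/
def CB : Prop :=
  ∀ (N : ℕ) (V : Finset (Fin N)) (cl : Cp N → Lb N) (E : Finset (Fin N × Fin N))
    (c : Cp N → ℤ) (A B L k : ℕ),
    1 ≤ A → 1 ≤ L → 3 * A * (3 * B + L) ≤ k * L →
    (∀ p ∈ E, p.1 ∈ V ∧ p.2 ∈ V ∧ cl (p.1, false) = cl (p.2, true)) →
    Xp A E V cl →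
    (∀ x : Cp N, x.1 ∉ V → c x = 0) →
    (∀ j : Lb N, ∑ x ∈ Qc V cl j, sg c x = 0) →
    (∀ x : Cp N, (L : ℤ) * |c x| ≤ (3 * (B : ℤ) + (L : ℤ)) * (inc E x : ℤ)) →
    ∀ S : Finset (Cp N), |∑ x ∈ S, sg c x| ≤ (k : ℤ) * (cut E S : ℤ)

/-- **SY** (the weights). PROOF.  Write `e = e2 G V`, `d u = dg G V u`, `E = Ed G V cl`.  Choose
`s u` with `L <= inc E (u, s u)` for `u` in `V`, and let `p u = (cl (u, s u), s u)`.
(1) `RC` with `A = V`, this `p`, `x u = h d u / e`, `K = h` (the sum of `x` over `V` is `h`): `m u`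
integers with `|m u - h d u / e| < 1`, sum `h`, and the errors `th u = m u - h d u / e` have class
sums `< 1` in absolute value.  `m u > -1`, so `m u >= 0` and we may take natural numbers.
(2) `x' u = (4 k - D h / e) d u`.  By hypothesis `0 <= 4 k - D h / e < h / e`, so
`0 <= x' u <= h d u / e`.  The sum of `x'` over `V` is the integer `4 k e - D h`.  `RC` with the
same `p` gives integers `w u` with `|w u - x' u| < 1` and class sums of `w - x'` smaller than `1`.
(3) `c0 u = D m u - 4 k d u + w u` (integer) `= D th u + (w u - x' u)`, so `|c0 u| < D + 1` and the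
class sums of `c0` are `< D + 1` in absolute value.  Note
`V.filter (cl (u, i) = j and s u = i) = V.filter (p u = (j, i))`.
(4) `CA` with `B = D + 1` gives `c`.  `CB` (with the hypothesis `3 A (3 (D+1) + L) <= k L`) and
`FL` give `g` with `Cap E k g`, row sums `c (u,false)` and column sums `c (v,true)`.
(5) For `u, v` in `V` adjacent let `f (u,v) = 2 k + g (u,v)`, which is between `k` and `3 k`;
`z u v = f (u,v) + f (v,u)` between `2 k` and `6 k` (a natural number), and `z u v = 0` for the
other pairs.  `z` is symmetric.  For `u` in `V`: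
`sum over v of z u v = 4 k d u + c (u,false) + c (u,true)`, because `g = 0` outside `E` and all
pairs in `E` are pairs of adjacent elements of `V`.  With
`|c (u,false) + c (u,true) - c0 u| <= (4 (D+1) + 2 L) / L` and `4 k d u + c0 u = D m u + w u`,
`-1 < w u < h d u / e + 1`, the two last inequalities follow. -/
def SY : Prop := RO → RC → CA → CB → FA → FL →
  ∀ (N : ℕ) (G : SimpleGraph (Fin N)) (V : Finset (Fin N)) (cl : Cp N → Lb N)
    (A L k h D : ℕ),
    1 ≤ A → 1 ≤ L → 1 ≤ e2 G V →
    Xp A (Ed G V cl) V cl →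
    (∀ u ∈ V, L ≤ inc (Ed G V cl) (u, false) ∨ L ≤ inc (Ed G V cl) (u, true)) →
    D * h ≤ 4 * k * e2 G V → 4 * k * e2 G V < (D + 1) * h →
    3 * A * (3 * (D + 1) + L) ≤ k * L →
    ∃ (m : Fin N → ℕ) (z : Fin N → Fin N → ℕ),
      (∑ u ∈ V, m u = h) ∧
      (∀ u ∈ V, |(m u : ℝ) - (h : ℝ) * (dg G V u : ℝ) / (e2 G V : ℝ)| < 1) ∧
      (∀ u v, z u v = z v u) ∧
      (∀ u v, ¬ (u ∈ V ∧ v ∈ V ∧ G.Adj u v) → z u v = 0) ∧
      (∀ u v, u ∈ V → v ∈ V → G.Adj u v → 2 * k ≤ z u v ∧ z u v ≤ 6 * k) ∧
      (∀ u ∈ V,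
        (D : ℝ) * (m u : ℝ) - 1 - (4 * ((D : ℝ) + 1) + 2 * (L : ℝ)) / (L : ℝ) ≤
          ((∑ v : Fin N, z u v : ℕ) : ℝ) ∧
        ((∑ v : Fin N, z u v : ℕ) : ℝ) ≤
          (D : ℝ) * (m u : ℝ) + (h : ℝ) * (dg G V u : ℝ) / (e2 G V : ℝ) + 1 +
            (4 * ((D : ℝ) + 1) + 2 * (L : ℝ)) / (L : ℝ))

/-- **WA** (the sets `W`, `V`, the classes and `L`). PROOF.  `N >= 200`, `2 t + 4 <= N`.  `KR`
gives `W`; `w = |W|`, `E = e2 G W`.  `TU` for `W` (every `S` with `t` elements has an edge):
`w^2 <= t (E + w)`; `w >= N/2 >= 100 t`, so `w * 100 t <= w^2 <= t (E + w)`, `99 w <= E` (`t >= 1`).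
So `w >= 100`, `E >= 1`.  `E <= w * w <= N^2 <= 2^q`.  `DE` with `A = 8 q` gives `V`, `cl`.  Let
`L = (E + 8 w - 1) / (8 w)` (natural division, the least integer with `E <= 8 w L`).
`E >= 99 w` gives `L >= 13` (`8 w * 12 = 96 w < E`).  For `u` in `V`: `E <= 4 w (i + i')`, where
`i, i'` are the two `inc`, so `E <= 8 w max (i, i')` and `L <= max (i, i')`.
`inc (Ed G V cl) (u, false) <= dg G V u`: the edges at `(u, false)` are the `(u, v)`, `v` in `V`
adjacent to `u`; the same for `(u, true)` by symmetry of `G`.  So `L <= dg G V u`.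
`dg G V u <= dg G W u`, so `2 w dg G V u <= q E`.  `|Ed| <= e2 G V` (the set of the ordered pairs
of adjacent elements of `V` has `e2 G V` elements), so `5 E <= 8 e2 G V`; `e2 G V <= E` as `V` is
inside `W`. -/
def WA : Prop := TU → KR → XL → DB → DC → DE →
  ∀ (N : ℕ) (G : SimpleGraph (Fin N)) (t q : ℕ),
    1 ≤ q → 1 ≤ t → NoInd G t → 200 * t ≤ N → N ^ 2 ≤ 2 ^ q →
    ∃ (w E L : ℕ) (V : Finset (Fin N)) (cl : Cp N → Lb N),
      N ≤ 2 * w ∧ w ≤ N ∧ 99 * w ≤ E ∧ E ≤ w * w ∧ E ≤ 8 * w * L ∧ 13 ≤ L ∧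
      Xp (8 * q) (Ed G V cl) V cl ∧ 5 * E ≤ 8 * e2 G V ∧ e2 G V ≤ E ∧
      ∀ u ∈ V, (L ≤ inc (Ed G V cl) (u, false) ∨ L ≤ inc (Ed G V cl) (u, true)) ∧
        L ≤ dg G V u ∧ 2 * (w * dg G V u) ≤ q * E

/-- **WT** (the numbers). PROOF.  Take `w, E, L, V, cl` from `WA`, `e = e2 G V`, `d u = dg G V u`,
`k = 30000 q^2`, `D' = 4 k e / h` (natural division; `h >= 1`).
(a) `D' h <= 4 k e <= 4 k E` and `h >= 18432 q N >= 18432 q w`, `E <= 8 w L`: so
`D' * 18432 q w <= 120000 q^2 * 8 w L`, `D' <= 52.1 q L`, and with `L >= 13`: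
`D' + 1 <= 53 q L`.
(b) `A = 8 q`: `3 A (3 (D'+1) + L) <= 24 q (159 q L + q L) = 3840 q^2 L <= k L`.
(c) `e >= 1` (`8 e >= 5 E > 0`).  `SY` with `A = 8 q`, `L`, `k`, `h`, `D = D'` gives `m`, `z`.
(d) Lower bound of `m u`: `d u >= L`, `8 w L >= E >= e`, so `h d u / e >= h / (8 w) >=
18432 q N / (8 N) = 2304 q`, so `m u > 2304 q - 1`, `m u >= 2304 q`.
(e) Upper bound: `2 w d u <= q E`, `5 E <= 8 e`, so `d u / e <= q E / (2 w e) <= 4 q / (5 w)`, and
`h <= 36864 q N <= 73728 q w`: `h d u / e <= 58982.4 q^2`, `m u <= 58983.4 q^2 <= 60000 q^2`.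
(f) `m u <= 60000 q^2 = 2 k <= z u v`; `8 z u v <= 48 k = 1440000 q^2 <= (2304 q)^2 <= m u * m v`.
(g) `D' >= 1`: `4 k e >= 120000 * (5/8) * 99 * (N/2) * q^2 >= 36864 q N >= h`.  Let `D = D' - 1`.
(h) `(4 (D'+1) + 2 L) / L <= 212 q + 2`.  So
`sum z >= D' m u - 1 - 212 q - 2 >= D' m u - 2304 q >= (D' - 1) m u`, and, with
`h d u / e < m u + 1`, `sum z <= D' m u + m u + 1 + 1 + 212 q + 2 <= D' m u + m u + 216 q
<= (D' + 2) m u = (D + 3) m u`.
(i) `D' h <= 4 k E`, `E <= w * w <= w N`, `h >= 18432 q w` give `D' <= 6.52 q N`, so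
`100 D + 500 <= 652 q N + 500 <= 18432 q N <= h` (`N >= 200`). -/
def WT : Prop := TU → KR → XL → DB → DC → DE → WA → RO → RC → CA → CB → FA → FL → SY →
  ∀ (N : ℕ) (G : SimpleGraph (Fin N)) (t q h : ℕ),
    1 ≤ q → 1 ≤ t → NoInd G t → 200 * t ≤ N → N ^ 2 ≤ 2 ^ q →
    18432 * q * N ≤ h → h ≤ 36864 * q * N →
    ∃ (V : Finset (Fin N)) (m : Fin N → ℕ) (z : Fin N → Fin N → ℕ) (D : ℕ),
      (∑ u ∈ V, m u = h) ∧ (∀ u ∈ V, 1 ≤ m u ∧ m u ≤ 60000 * q ^ 2) ∧
      (∀ u v, z u v = z v u) ∧
      (∀ u v, ¬ (u ∈ V ∧ v ∈ V ∧ G.Adj u v) → z u v = 0) ∧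
      (∀ u ∈ V, ∀ v ∈ V, G.Adj u v →
        m u ≤ z u v ∧ m v ≤ z u v ∧ 8 * z u v ≤ m u * m v) ∧
      (∀ u ∈ V, D * m u ≤ ∑ v : Fin N, z u v ∧ ∑ v : Fin N, z u v ≤ (D + 3) * m u) ∧
      100 * D + 500 ≤ h

/-! ## 4. The random blow-up -/

/-- **BA** (balanced assignment). PROOF.  For `x < m` let `cnt Z x = (Z + (m - 1 - x)) / m` (natural
division): the number of the `i < Z` which are `x` modulo `m`.  Let `Z v` be the sum of `z v'`
over `v' < v` and `a v x = cnt (Z v + z v) x - cnt (Z v) x` (for `x >= m` put `0`).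
(1) Hermite: the sum of `cnt Z x` over `x < m` is `Z`: reverse the order of summation
(`Finset.sum_range_reflect`) and use induction on `Z` for the sum of `(Z + x) / m` over `x < m`:
passing from `Z` to `Z + 1` shifts the summands, adds `(Z + m) / m` and removes `Z / m`, the
difference is `1`.  So the sum of `a v x` over `x` is `z v`.
(2) `(Y + z) / m - Y / m` is `z / m` or `z / m + 1`, so the values `a v x` differ by at most `1`.
(3) The sum of `a v x` over all `v` telescopes (`Fin` sum, `Finset.sum_range` or induction on `N`):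
it is `cnt (sum of z) x - cnt 0 x = (Z0 + (m - 1 - x)) / m - 0` with `Z0 = sum of z`, because
`(m - 1 - x) / m = 0`.  If `D m <= Z0 <= D' m` this is between `D` and
`(D' m + m - 1) / m = D'`.  (Induction on `N` with `Fin.sum_univ_castSucc` avoids the order.) -/
def BA : Prop :=
  ∀ (N m : ℕ) (z : Fin N → ℕ), 1 ≤ m →
    ∃ a : Fin N → ℕ → ℕ,
      (∀ v, ∑ x ∈ range m, a v x = z v) ∧
      (∀ v, ∀ x ∈ range m, ∀ y ∈ range m, a v x ≤ a v y + 1) ∧
      (∀ D D' : ℕ, D * m ≤ ∑ v : Fin N, z v → ∑ v : Fin N, z v ≤ D' * m →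
        ∀ x ∈ range m, D ≤ ∑ v : Fin N, a v x ∧ ∑ v : Fin N, a v x ≤ D')

/-- **BG** (bipartite graph with given row sums and balanced column sums). PROOF.  Consider the
finite, nonempty family of the `R` inside `range m ×ˢ range m'` with row sums `a` (for example the
pairs `(x, y)` with `x < m`, `y < a x`).  For such an `R` let `col y` be its column sums and
`phi R` the sum of `|col y - b y|` over `y < m'` (integers).  Take `R` with the smallest `phi`.  The
sum of `col y` is the sum of `a`, which is the sum of `b`.  If some `col y` is different from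
`b y` then there are `y, y'` with `col y > b y` and `col y' < b y'`.  Then
`col y >= b y + 1 >= b y' >= col y' + 1`, so `col y > col y'` and there is a row `x` with
`(x, y)` in `R` and `(x, y')` not in `R` (otherwise the rows of column `y` are among the rows of
column `y'`).  Replace `(x, y)` by `(x, y')`: the row sums do not change and `phi` decreases
by `2`.  Contradiction. -/
def BG : Prop :=
  ∀ (m m' : ℕ) (a b : ℕ → ℕ),
    (∀ x ∈ range m, a x ≤ m') →
    (∑ x ∈ range m, a x = ∑ y ∈ range m', b y) →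
    (∀ y ∈ range m', ∀ y' ∈ range m', b y ≤ b y' + 1) →
    ∃ R : Finset (ℕ × ℕ), Bip m m' a b R

/-- **ST** (switching: any cell can be put into the graph). PROOF.  The number of edges `|R|` is
the sum of `a`, which is `z`, and it is the sum of `b`.
(1) Row sums: `m a x <= z + m - 1 < 2 z` (all `a x' >= a x - 1`; sum over `x'`, the term `x'=x`
is `a x`); similarly `m' b y < 2 z`.  And `a x >= 1`: if `a x = 0` then all `a x' <= 1` and
`z <= m - 1`; similarly `b y >= 1`.
(2) TWO-SWITCH: if `(x, y), (x', y')` are in `R`, `(x, y'), (x', y)` are not in `R` (so `x` is not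
`x'` and `y` is not `y'`), then `R` without the first two and with the last two is again `Bip`.
(3) If `(x0, y0)` is in `R` take `R' = R`.  Otherwise choose `y1` with `(x0, y1)` in `R` and `x1`
with `(x1, y0)` in `R`.  `x1` is not `x0`, `y1` is not `y0`.  If `(x1, y1)` is not in `R` then one
two-switch of `(x0, y1), (x1, y0)` gives `(x0, y0)`.
(4) Let `(x1, y1)` be in `R`.  The number of the `(x2, y2)` in `R` with `(x1, y2)` in `R` is the sum
of `b y2` over the `a x1` columns `y2` of row `x1`; `m m'` times it is at most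
`(m a x1)(max of m' b) < 4 z^2`.  The number of the `(x2, y2)` in `R` with `(x2, y1)` in `R`
is similarly `< 4 z^2 / (m m')`.  Together `< 8 z^2 / (m m') <= z = |R|`, as `8 z <= m m'`.  So
there is `(x2, y2)` in `R` with `(x1, y2)`, `(x2, y1)` not in `R`.  Two-switch of `(x1, y1)` and
`(x2, y2)` gives `R1` with `(x1, y2)`, `(x2, y1)` and without `(x1, y1)`, `(x2, y2)`.  In `R1` we
still have `(x0, y1)` (it is neither `(x1, y1)` nor `(x2, y2)`: `y2` is not `y1` because
`(x1, y1)` is in `R` and `(x1, y2)` is not) and `(x1, y0)` (`x2` is not `x1`), and `(x0, y0)` is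
not in `R1` (it is not `(x1, y2)` or `(x2, y1)`, since `x0` is not `x1` and `y0` is not `y1`).  A
two-switch of `(x0, y1), (x1, y0)` in `R1` gives `(x0, y0)`. -/
def ST : Prop :=
  ∀ (m m' z : ℕ) (a b : ℕ → ℕ) (R : Finset (ℕ × ℕ)),
    Bip m m' a b R → (∑ x ∈ range m, a x = z) → (∑ y ∈ range m', b y = z) →
    (∀ x ∈ range m, ∀ x' ∈ range m, a x ≤ a x' + 1) →
    (∀ y ∈ range m', ∀ y' ∈ range m', b y ≤ b y' + 1) →
    m ≤ z → m' ≤ z → 8 * z ≤ m * m' →
    ∀ x0 ∈ range m, ∀ y0 ∈ range m', ∃ R' : Finset (ℕ × ℕ), Bip m m' a b R' ∧ (x0, y0) ∈ R'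

/-- **SW** (a small family of bipartite graphs which covers all cells). PROOF.  `BG` applies:
`m a x <= z + m - 1 < 2 z` (all `a x' >= a x - 1`) and `8 z <= m m'` give `a x <= m'`.  So there is
an `R` with `Bip`.  By `ST`, for each cell `(x0, y0)` of `range m ×ˢ range m'` choose `R'` with
`Bip` and `(x0, y0)` in `R'`; let `Om` be the set of these (the image of
`range m ×ˢ range m'`).  `Om.card <= m m' <= M^2`; it is nonempty as `m, m' >= 1`. -/
def SW : Prop := BG → ST →
  ∀ (m m' M z : ℕ) (a b : ℕ → ℕ), 1 ≤ m → m ≤ M → 1 ≤ m' → m' ≤ M →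
    (∑ x ∈ range m, a x = z) → (∑ y ∈ range m', b y = z) →
    (∀ x ∈ range m, ∀ x' ∈ range m, a x ≤ a x' + 1) →
    (∀ y ∈ range m', ∀ y' ∈ range m', b y ≤ b y' + 1) →
    m ≤ z → m' ≤ z → 8 * z ≤ m * m' →
    ∃ Om : Finset (Finset (ℕ × ℕ)), Om.Nonempty ∧ Om.card ≤ M ^ 2 ∧
      (∀ R ∈ Om, Bip m m' a b R) ∧
      ∀ x0 ∈ range m, ∀ y0 ∈ range m', ∃ R ∈ Om, (x0, y0) ∈ R

/-- **UB** (union bound for independent choices). PROOF.  Let `P = Fintype.piFinset Om`, `|P|` is
the product of the `|Om i|`, which is positive.  For `T` in `X` let `bad T` be the set of the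
`w` in `P` with `¬ hit T i (w i)` for all `i` in `I T`.  It is the `piFinset` of the family which
is `(Om i).filter (¬ hit T i)` for `i` in `I T` and `Om i` otherwise.  For `i` in `I T` this has at
most `|Om i| - 1 <= |Om i| (1 - 1/K)` elements (`|Om i| <= K`), so
`|bad T| <= |P| (1 - 1/K)^|I T| <= |P| (1 - 1/K)^r` (`0 <= 1 - 1/K <= 1`).  The sum over `T` in `X`
is `< |P|`, so some `w` in `P` is in no `bad T`. -/
def UB : Prop :=
  ∀ (ι α τ : Type) [Fintype ι] (Om : ι → Finset α) (X : Finset τ) (I : τ → Finset ι)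
    (hit : τ → ι → α → Prop) (K r : ℕ),
    1 ≤ K → (∀ i, (Om i).Nonempty ∧ (Om i).card ≤ K) →
    (∀ T ∈ X, r ≤ (I T).card ∧ ∀ i ∈ I T, ∃ a ∈ Om i, hit T i a) →
    (X.card : ℝ) * (1 - 1 / (K : ℝ)) ^ r < 1 →
    ∃ w : ι → α, (∀ i, w i ∈ Om i) ∧ ∀ T ∈ X, ∃ i ∈ I T, hit T i (w i)

/-- **GB** (the blow-up has edges in every large transversal set). PROOF.  Let
`tau = 4 t M^2 q >= 1`.  Index set `Fin N × Fin N`.  For `i = (u, v)` with `u, v` in `V`, adjacent,
`u < v`, let `Om i` be the family of `SW` for `m u`, `m v`, `M`, `z u v`, `a u v`, `a v u` (its sums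
are `z u v` and `z v u = z u v`); for the other `i` let `Om i = {∅}` (note `1 <= M^2`).
`X` = the set of the `S` in `(Pt V m).powersetCard tau` with `Tr S`.  For `S` in `X` let
`S' = S.image Prod.fst`, `|S'| = tau` by `Tr S`, `S'` inside `V`, and let `I S` be the set of the
`(u, v)` in `S' ×ˢ S'` with `u < v` and `G.Adj u v`.  `2 |I S| = e2 G S'` (the ordered pairs of
adjacent elements of `S'` are the `(u,v)` and the `(v,u)` for `(u,v)` in `I S`).  `TU` for
`W = S'` (by `NoInd G t` every subset with `t` elements has an edge):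
`tau^2 <= t (e2 + tau)`, so `e2 >= tau (4 M^2 q) - tau >= 2 tau M^2 q`, so
`|I S| >= r := tau M^2 q`.  For `(u, v)` in `I S` let `(u, x), (v, y)` be the elements of `S` over
`u`, `v` (`x < m u`, `y < m v`): `hit S (u,v) R` is the statement
`∃ x y, (u, x) ∈ S ∧ (v, y) ∈ S ∧ (x, y) ∈ R`; by `SW` some element of `Om (u,v)` is hit.
`|X| <= h^tau <= 2^(q tau)` (`card (Pt V m) = sum of m = h`,
`Nat.choose_le_pow`), `(1 - 1/M^2)^r <= exp(-r/M^2) = exp(-tau q)` and `2^(q tau) exp(-q tau) < 1`
because `2 < exp 1` and `q tau >= 1`.  `UB` with `K = M^2` gives `R u v := w (u, v)`; a hit gives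
an edge of `Fg G V R` between `(u, x)` and `(v, y)`. -/
def GB : Prop := TU → BG → ST → SW → UB →
  ∀ (N : ℕ) (G : SimpleGraph (Fin N)) (V : Finset (Fin N)) (m : Fin N → ℕ)
    (z : Fin N → Fin N → ℕ) (a : Fin N → Fin N → ℕ → ℕ) (t q M h : ℕ),
    1 ≤ t → 1 ≤ q → 1 ≤ M → NoInd G t → h ≤ 2 ^ q → (∑ u ∈ V, m u = h) →
    (∀ u ∈ V, 1 ≤ m u ∧ m u ≤ M) →
    (∀ u v, z u v = z v u) →
    (∀ u ∈ V, ∀ v ∈ V, G.Adj u v →
      m u ≤ z u v ∧ m v ≤ z u v ∧ 8 * z u v ≤ m u * m v) →
    (∀ u ∈ V, ∀ v, ∑ x ∈ range (m u), a u v x = z u v) →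
    (∀ u ∈ V, ∀ v, ∀ x ∈ range (m u), ∀ y ∈ range (m u), a u v x ≤ a u v y + 1) →
    ∃ R : Fin N → Fin N → Finset (ℕ × ℕ),
      (∀ u ∈ V, ∀ v ∈ V, G.Adj u v → u < v →
        Bip (m u) (m v) (a u v) (a v u) (R u v)) ∧
      ∀ S ⊆ Pt V m, Tr S → S.card = 4 * t * M ^ 2 * q →
        ∃ x ∈ S, ∃ y ∈ S, (Fg G V R).Adj x y

/-- **GA** (the degrees of the blow-up). PROOF.  Let `x = (u, i)`.  The neighbours `y = (v, j)` of
`x` in `Pt V m` have `v` in `V`, adjacent to `u`; count them according to `v`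
(`Finset.card_eq_sum_card_fiberwise` for `y ↦ y.1` into `V.filter (G.Adj u)`).  For fixed `v` (not
`u`, by irreflexivity): if `u < v` they are the `(v, j)` with `j < m v` and `(i, j)` in `R u v`;
their number is the row sum `a u v i` of `Bip (m u) (m v) (a u v) (a v u) (R u v)` (all elements
of `R u v` have second coordinate `< m v`).  If `v < u` they are the `(v, j)` with `(j, i)` in
`R v u`; their number is the column sum, which is `a u v i` in
`Bip (m v) (m u) (a v u) (a u v) (R v u)`. -/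
def GA : Prop :=
  ∀ (N : ℕ) (G : SimpleGraph (Fin N)) (V : Finset (Fin N)) (m : Fin N → ℕ)
    (a : Fin N → Fin N → ℕ → ℕ) (R : Fin N → Fin N → Finset (ℕ × ℕ)),
    (∀ u ∈ V, ∀ v ∈ V, G.Adj u v → u < v →
      Bip (m u) (m v) (a u v) (a v u) (R u v)) →
    ∀ x ∈ Pt V m,
      ((Pt V m).filter (fun y => (Fg G V R).Adj x y)).card =
        ∑ v ∈ V.filter (fun v => G.Adj x.1 v), a x.1 v x.2

/-- **GC** (the blow-up on `Fin h`). PROOF.  For `u` in `V` let `a u` be the function of `BA` for
`m u` and `z u` (for `u` not in `V` anything).  `GB` gives `R`.  `card (Pt V m) = h`, so there is a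
bijection `e : Fin h ≃ Pt V m` (`Finset.equivFinOfCardEq`).  Let `H` be the graph on `Fin h` with
`H.Adj x y ↔ (Fg G V R).Adj (e x) (e y)` (`SimpleGraph.comap`).
(1) Cliques: `x ↦ (e x).1.1` maps adjacent vertices of `H` to adjacent vertices of `G`, so it is
injective on a clique and the image of a clique of `H` with `s` elements is a clique of `G` with
`s` elements (or: `H` has a homomorphism to `G`, `SimpleGraph.CliqueFree.comap` for the top
graph: `H.CliqueFree s` iff no embedding of the complete graph; a homomorphism from a complete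
graph is injective).
(2) Degrees: `dgr H x` is the number of the `y` in `Pt V m` with `(Fg G V R).Adj (e x) y`, which
by `GA` is the sum of `a u v i` over the `v` in `V` adjacent to `u`, where `e x = (u, i)`.  For
the other `v` we have `z u v = 0`, so `a u v i = 0` (the sum of `a u v x'` over `x' < m u` is
`z u v`).  So `dgr H x` is the sum of `a u v i` over all `v`, which by `BA` (with `D' = D + 3`) is
between `D` and `D + 3`.
(3) Let `S` have `M tau` elements, `tau = 4 t M^2 q`, and let `S1` be its image in `Pt V m`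
(same size).  For each `u` there are at most `m u <= M` elements of `S1` with first coordinate
`u`, so the image `U` of `S1` under `Prod.fst` has `M |U| >= M tau`, `|U| >= tau`.  Choose `tau`
elements of `U` and for each one element of `S1` over it: a subset of `S1` with `Tr` and `tau`
elements.  By `GB` it has an edge. -/
def GC : Prop := TU → BA → BG → ST → SW → UB → GB → GA →
  ∀ (N : ℕ) (G : SimpleGraph (Fin N)) (V : Finset (Fin N)) (m : Fin N → ℕ)
    (z : Fin N → Fin N → ℕ) (t q M h D : ℕ),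
    1 ≤ t → 1 ≤ q → 1 ≤ M → NoInd G t → h ≤ 2 ^ q → (∑ u ∈ V, m u = h) →
    (∀ u ∈ V, 1 ≤ m u ∧ m u ≤ M) →
    (∀ u v, z u v = z v u) →
    (∀ u v, ¬ (u ∈ V ∧ v ∈ V ∧ G.Adj u v) → z u v = 0) →
    (∀ u ∈ V, ∀ v ∈ V, G.Adj u v →
      m u ≤ z u v ∧ m v ≤ z u v ∧ 8 * z u v ≤ m u * m v) →
    (∀ u ∈ V, D * m u ≤ ∑ v : Fin N, z u v ∧ ∑ v : Fin N, z u v ≤ (D + 3) * m u) →
    ∃ H : SimpleGraph (Fin h),
      (∀ s : ℕ, G.CliqueFree s → H.CliqueFree s) ∧
      (∀ x, D ≤ dgr H x ∧ dgr H x ≤ D + 3) ∧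
      ∀ S : Finset (Fin h), S.card = M * (4 * t * M ^ 2 * q) →
        ∃ x ∈ S, ∃ y ∈ S, H.Adj x y

/-! ## 5. The regular graph -/

/-- **TA** (the edges between the two copies). PROOF.  Note `dgr H i <= D`.  Call `B` good if its
row sums and column sums are at most `f` and it satisfies the two last conditions.  The empty set
is good.  Take a good `B` with the most elements.  If all row sums are `f i` then `|B|` is the sum
of `f` and all column sums are `f j` also, and we are done.  Suppose not; then `|B| < sum f`, and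
there are `i0` with row sum `< f i0` and `j0` with column sum `< f j0`.
Let `FC` be the set of the columns `l` with: `(i0, l)` in `B`, or `H.Adj j' l` for some `j'` with
`(i0, j')` in `B`, or `(i', l)` in `B` for some `i'` with `H.Adj i0 i'`.  As row and column sums
are at most `4`, `|FC| <= 4 + 4 D + 4 D = 8 D + 4`.  If `l` is not in `FC` and its column sum is
`< f l` then `insert (i0, l) B` is good: contradiction.  So the columns outside `FC` are full, in
particular they have at least one element of `B`; and `j0` is in `FC`.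
Let `FR` be the set of the rows `k` with: `(k, j0)` in `B`, or `H.Adj i' k` for some `i'` with
`(i', j0)` in `B`, or `(k, j')` in `B` for some `j'` with `H.Adj j0 j'`.  Similarly
`|FR| <= 8 D + 4` and `i0` is in `FR`.
`|B| >= h - |FC| >= h - (8 D + 4) > 8 (8 D + 4)` (one element in each column outside `FC`), and the
elements of `B` with column in `FC` or row in `FR` are at most `4 |FC| + 4 |FR| <= 8 (8 D + 4)`.
So there is `(k, l)` in `B` with `l` not in `FC` and `k` not in `FR`; `k` is not `i0` and `l` is not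
`j0`.  Let `B' = insert (i0, l) (insert (k, j0) (B.erase (k, l)))`.  `(i0, l)` and `(k, j0)` are
not in `B`.  Row sums: row `i0` gets one more, row `k` is unchanged; columns: `j0` gets one
more, `l` is unchanged.  The conflicts are excluded by the definition of `FC` and `FR` (the two new
elements are in different rows and columns).  So `B'` is good with `|B| + 1` elements:
contradiction. -/
def TA : Prop :=
  ∀ (h D : ℕ) (H : SimpleGraph (Fin h)) (f : Fin h → ℕ),
    (∀ i, 1 ≤ f i ∧ f i ≤ 4) → (∀ i, dgr H i + f i = D) → 72 * D + 36 < h →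
    ∃ B : Finset (Fin h × Fin h),
      (∀ i, (B.filter (fun p => p.1 = i)).card = f i) ∧
      (∀ j, (B.filter (fun p => p.2 = j)).card = f j) ∧
      (∀ p ∈ B, ∀ p' ∈ B, p.1 = p'.1 → ¬ H.Adj p.2 p'.2) ∧
      (∀ p ∈ B, ∀ p' ∈ B, p.2 = p'.2 → ¬ H.Adj p.1 p'.1)

/-- **TB** (doubling). PROOF.  `TA` with `D + 4` instead of `D` and `f i = D + 4 - dgr H i` (between
`1` and `4`; `72 (D + 4) + 36 = 72 D + 324 < 100 D + 500 <= h`) gives `B`.  On `Fin h × Bool` let
`(i, b)` and `(j, b')` be adjacent if `b = b'` and `H.Adj i j`, or `b = false`, `b' = true` and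
`(i, j)` in `B`, or `b = true`, `b' = false` and `(j, i)` in `B`.  Degree of `(i, false)`:
`dgr H i +` row sum of `i` `= D + 4`; degree of `(j, true)`: `dgr H j +` column sum `= D + 4`.
Let `C` be a clique with `s >= 3` elements.  If all elements have the same `Bool` then the first
coordinates are a clique of `H` with `s` elements.  Otherwise `C` has `(i, false)` and
`(j, true)`, with `(i, j)` in `B`, and a third element: `(k, false)`, then `(k, j)` in `B` and
`H.Adj i k`, impossible; or `(k, true)`, then `(i, k)` in `B` and `H.Adj j k`, impossible.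
A set with `2 R` elements has `R` elements with the same `Bool`, so it has an edge of that copy
of `H`.  Transport to `Fin (2 h)` by a bijection `Fin (2 h) ≃ Fin h × Bool`
(`Fintype.equivOfCardEq`). -/
def TB : Prop := TA →
  ∀ (h D s R : ℕ) (H : SimpleGraph (Fin h)), 3 ≤ s → H.CliqueFree s →
    (∀ x, D ≤ dgr H x ∧ dgr H x ≤ D + 3) → 100 * D + 500 ≤ h →
    (∀ S : Finset (Fin h), S.card = R → ∃ x ∈ S, ∃ y ∈ S, H.Adj x y) →
    ∃ K : SimpleGraph (Fin (2 * h)), K.CliqueFree s ∧ (∀ x, dgr K x = D + 4) ∧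
      ∀ S : Finset (Fin (2 * h)), S.card = 2 * R → ∃ x ∈ S, ∃ y ∈ S, K.Adj x y

/-- **OV** (at most one vertex is deleted). PROOF.  `n = 2 h` or `n = 2 h - 1`, `n <= 2 h`.  Let
`K'` be the graph induced by `K` on the first `n` vertices (`comap` of `Fin.castLE`).  Clique
freeness and the edges in sets of size `T` are inherited (the image of a set of `T` elements has
`T` elements).  The degree of `x` in `K'` is `D` if `n = 2 h`, and `D` or `D - 1` if `n = 2 h - 1`
(one vertex of `K` is missing): the number of the neighbours of `x` in `Fin (2 h)` is at most one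
more than the number of those with value `< n`. -/
def OV : Prop :=
  ∀ (h D s T n : ℕ) (K : SimpleGraph (Fin (2 * h))), 1 ≤ n → h = (n + 1) / 2 →
    K.CliqueFree s → (∀ x, dgr K x = D) →
    (∀ S : Finset (Fin (2 * h)), S.card = T → ∃ x ∈ S, ∃ y ∈ S, K.Adj x y) →
    ∃ K' : SimpleGraph (Fin n), K'.CliqueFree s ∧ (∀ x y, dgr K' x ≤ dgr K' y + 1) ∧
      ∀ S : Finset (Fin n), S.card = T → ∃ x ∈ S, ∃ y ∈ S, K'.Adj x y

/-- **FN** (the final numbers). PROOF.  Let `c = Nat.clog 2 n >= 1`, `n <= 2^c`, `q = 2 c`,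
`h = (n + 1) / 2`, `N0 = h / (18432 q)` (natural division), `T = 10^18 t c^7`.
Case 1: `N0 < 200 t`.  Then `h < 18432 q (N0 + 1) <= 18432 q * 200 t = 3686400 q t`, so
`n <= 2 h <= 2 * 3686400 * 2 c t = 14745600 c t < T`.  Take `K = ⊥`: it has no edges, so no clique
with `s >= 3` elements, all degrees `0`, and no subset of `Fin n` has `T > n` elements.
Case 2: `200 t <= N0`.  `N0 <= h <= n`.  Let `G0` be the graph induced by `G` on the first `N0`
vertices (`comap` of `Fin.castLE`): `G0.CliqueFree s`, `NoInd G0 t`.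
`N0^2 <= n^2 <= 2^(2c) = 2^q`, `18432 q N0 <= h`, and `h < 18432 q (N0 + 1) <= 36864 q N0`.
`WT` for `G0` gives `V, m, z, D`.  `GC` with `M = 60000 q^2` (`h <= n <= 2^c <= 2^q`) gives `H` on
`Fin h`, `H.CliqueFree s`.  `TB` with `R = M (4 t M^2 q)` and `OV` with `T = 2 R` (and `D + 4`)
give `K'` on `Fin n` such that every set with `2 R` elements has an edge.
`2 R = 8 t q M^3 = 8 t q 60000^3 q^6 = 1.728 * 10^15 t q^7 = 1.728 * 10^15 * 128 t c^7
= 2.21184 * 10^17 t c^7 <= T`, and a set with `T` elements has a subset with `2 R` elements. -/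
def FN : Prop := TU → KR → XL → DB → DC → DE → WA → RO → RC → CA → CB → FA → FL → SY → WT →
  BA → BG → ST → SW → UB → GB → GA → GC → TA → TB → OV →
  ∀ (s t n : ℕ), 3 ≤ s → 1 ≤ t → 2 ≤ n →
  ∀ G : SimpleGraph (Fin n), G.CliqueFree s → NoInd G t →
    ∃ K : SimpleGraph (Fin n), K.CliqueFree s ∧ (∀ x y, dgr K x ≤ dgr K y + 1) ∧
      ∀ S : Finset (Fin n), S.card = 10 ^ 18 * t * (Nat.clog 2 n) ^ 7 →
        ∃ x ∈ S, ∃ y ∈ S, K.Adj x y

end

end Pool.Agent.Helper95.RP
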